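import Pool.Agent.V8H57.WF.Val

/-! Clauses of the counting principle with negligible disjuncts only. -/

set_option autoImplicit false
set_option linter.unusedSectionVars false

namespace Pool.Agent.V8H57.WF

open Finset Pool.Agent.Helper600R2 Pool.Agent.Helper600R2.Cnt

section

variable {Vt E : Type} [Fintype Vt] [Fintype E] [DecidableEq Vt] [DecidableEq E]
  {hd tl : E → Vt} {q : ℕ} [NeZero q] {K : Type*} [Field K] {ψ : AddChar (ZMod q) K}
  {b : Vt → ZMod q} {N : ℕ} {ρ : PS N} {y : (E → ZMod q) → PS N}
  {p : ℕ} [Fact p.Prime] [CharP K p] {k : ℕ}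
  {𝓑 : Finset (Fm p (Var q N))} {β : Fm p (Var q N) → Bool}

lemma tree_null (hψ : ψ.IsPrimitive) (hqK : (q : K) ≠ 0) (hG : Good hd tl ψ b N ρ y)
    (χ : MF N) : toK K (fun z => ((tr q k ρ χ).eval (y z)).isNone) ∈ NF hd tl ψ b (4 * k + 8) :=
  hG.tree_fail hψ hqK _ k (tr_ht χ)

lemma tree_DC (hψ : ψ.IsPrimitive) (hqK : (q : K) ≠ 0) (hG : Good hd tl ψ b N ρ y)
    (χ : MF N) : toK K (fun z => ((tr q k ρ χ).eval (y z)).isNone) ∈ DC ψ (4 * k) := by
  classical
  obtain ⟨F, hF, hFJ⟩ : ∃ F : (E → ZMod q) → K, (∀ z, F z =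
      if ((tr q k ρ χ).eval (y z)).isNone = true then 0 else 1) ∧
      F ∈ J (ι := E) (α := ZMod q) K (4 * k) := by
    refine ⟨_, fun z => ?_, hG.tree_deg (fun _ => True) (tr q k ρ χ) k (tr_ht χ)⟩
    cases h : (tr q k ρ χ).eval (y z) <;> simp [toK, h]
  have h2 : toK K (fun z => ((tr q k ρ χ).eval (y z)).isNone) = 1 - F := by
    funext z
    rw [Pi.sub_apply, hF]
    cases h : (tr q k ρ χ).eval (y z) <;> simp [toK, h]
  rw [h2]
  exact J_le_DC ψ hψ hqK _ (Submodule.sub_mem _ (J_one _) hFJ)

lemma block_DC (hψ : ψ.IsPrimitive) (hqK : (q : K) ≠ 0) (hG : Good hd tl ψ b N ρ y)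
    (e : Finset (Fin N)) (u : Fin N) (hu : u ∈ e) :
    toK K (fun z => decide (e ∈ y z)) ∈ DC ψ 4 := by
  obtain ⟨I, hI1, hI2⟩ := hG.loc u
  refine J_le_DC ψ hψ hqK _ (junta_mem I hI1 ?_)
  intro z z' hzz
  have h1 := hI2 z z' hzz e
  have h2 : e ∈ y z ↔ e ∈ y z' :=
    ⟨fun h => (h1.1 ⟨h, hu⟩).1, fun h => (h1.2 ⟨h, hu⟩).1⟩
  simp only [toK, decide_eq_true_eq, h2]

/-- a clause whose literals are all negligible below `h` -/
theorem wild_clause (hψ : ψ.IsPrimitive) (hqK : (q : K) ≠ 0) (hG : Good hd tl ψ b N ρ y)
    (hqk : q ≤ k) {w n D : ℕ} (hkw : 4 * k + 8 ≤ w) (hD : (n + 4) * w ≤ D)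
    {h : (E → ZMod q) → K} (hh : h ∈ DC ψ (n * w)) (hnot : h ∉ NF hd tl ψ b D) {t : ℕ}
    {φs : Fin t → Fm p (Var q N)} (hax : IsAxiom (.or t φs))
    (hdc : ∀ j, toK K (fun z => VB q k ρ (fun a : Var q N => a.1) y 𝓑 β z (φs j)) ∈ DC ψ w)
    (hnull : ∀ j, toK K (fun z => VB q k ρ (fun a : Var q N => a.1) y 𝓑 β z (φs j)) * h ∈
      NF hd tl ψ b ((n + 1) * w)) : False := by
  classical
  have hq : 1 ≤ q := NeZero.one_le
  apply hnot
  obtain ⟨t', φs', heq, hcase⟩ := hax
  cases heq
  rcases hcase with ⟨v, hv⟩ | ⟨e, f, hef, hdis, ⟨j, hj⟩, ⟨j', hj'⟩⟩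
  · -- the clause of the element `v`
    set A : Var q N → (E → ZMod q) → K := fun e => toK K (fun z => decide (e.1 ∈ y z)) with hA
    set X : Var q N → (E → ZMod q) → K := fun e =>
      toK K (fun z => VB q k ρ (fun a : Var q N => a.1) y 𝓑 β z (.var e)) with hX
    set Fl : Var q N → (E → ZMod q) → K := fun e =>
      toK K (fun z => ((tr q k ρ (.var e.1)).eval (y z)).isNone) with hFl
    have key : h = toK K (fun z => decide (v ∉ cov (y z))) * h +
        ∑ e ∈ univ.filter (fun e : Var q N => v ∈ e.1),
          (X e * h * A e + Fl e * (A e * (1 - X e) * h)) := by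
      have hpt : ∀ e : Var q N, v ∈ e.1 → ∀ z,
          A e z = X e z * A e z + Fl e z * (A e z * (1 - X e z)) := by
        intro e _ z
        by_cases he : e.1 ∈ y z
        · have hA1 : A e z = 1 := by simp [hA, toK, he]
          rw [hA1]
          cases h1 : (tr q k ρ (.var e.1)).eval (y z) with
          | none =>
            have hF1 : Fl e z = 1 := by simp [hFl, toK, h1]
            rw [hF1]; ring
          | some σ =>
            have hX1 : X e z = 1 := by
              obtain ⟨a1, a2, a3, a4⟩ := tr_rep (HasT.var hq e.1 ρ k hqk) (y z) (hG.pp z)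
                (hG.ext z) σ h1
              have htv : tv q k ρ (y z) (.var e.1) = true := by
                rw [tv_iff]
                refine ⟨σ, h1, ?_⟩
                rcases a4 with a4 | a4
                · exact a4
                · exfalso
                  simp only [W, Bool.false_eq_true, if_false] at a4
                  obtain ⟨b1, b2 | b2⟩ := a4
                  · exact b2 e.2
                  · obtain ⟨x, hx1, hx2⟩ := Finset.not_disjoint_iff.1 b2
                    obtain ⟨B, hB, hxB⟩ := mem_cov.1 hx2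
                    have := (hG.pp z).eq_of_mem (a2 hB) he hxB hx1
                    exact b1 (this ▸ hB)
              show toK K (fun z => VB q k ρ (fun a : Var q N => a.1) y 𝓑 β z (.var e)) z = 1
              exact toK_true htv
            rw [hX1]; ring
        · have hA0 : A e z = 0 := by simp [hA, toK, he]
          rw [hA0]; ring
      have hsum : ∀ z, toK K (fun z => decide (v ∉ cov (y z))) z +
          ∑ e ∈ univ.filter (fun e : Var q N => v ∈ e.1), A e z = 1 := by
        intro z
        by_cases hvc : v ∈ cov (y z)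
        · obtain ⟨B, hB, hvB⟩ := mem_cov.1 hvc
          rw [Finset.sum_eq_single (⟨B, (hG.pp z).1 B hB⟩ : Var q N)]
          · simp [toK, hvc, hA, hB]
          · intro e he hne
            rw [mem_filter] at he
            have : e.1 ∉ y z := by
              intro he'
              exact hne (Subtype.ext ((hG.pp z).eq_of_mem he' hB he.2 hvB))
            simp [hA, toK, this]
          · intro hn
            exact absurd (by simp [hvB]) hn
        · rw [Finset.sum_eq_zero]
          · simp [toK, hvc]
          · intro e he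
            rw [mem_filter] at he
            have : e.1 ∉ y z := fun he' => hvc (mem_cov.2 ⟨e.1, he', he.2⟩)
            simp [hA, toK, this]
      funext z
      have h1 := hsum z
      have h2 : ∑ e ∈ univ.filter (fun e : Var q N => v ∈ e.1), A e z =
          ∑ e ∈ univ.filter (fun e : Var q N => v ∈ e.1),
            (X e z * A e z + Fl e z * (A e z * (1 - X e z))) :=
        Finset.sum_congr rfl (fun e he => hpt e (mem_filter.1 he).2 z)
      simp only [Pi.add_apply, Pi.mul_apply, Finset.sum_apply, Pi.sub_apply, Pi.one_apply]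
      calc h z = (toK K (fun z => decide (v ∉ cov (y z))) z +
            ∑ e ∈ univ.filter (fun e : Var q N => v ∈ e.1), A e z) * h z := by
            rw [h1, one_mul]
        _ = toK K (fun z => decide (v ∉ cov (y z))) z * h z +
            ∑ e ∈ univ.filter (fun e : Var q N => v ∈ e.1),
              (X e z * A e z + Fl e z * (A e z * (1 - X e z))) * h z := by
            rw [add_mul, h2, Finset.sum_mul]
        _ = _ := by
            congr 1
            refine Finset.sum_congr rfl fun e _ => ?_
            ring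
    rw [key]
    refine Submodule.add_mem _ ?_ (Submodule.sum_mem _ fun e he => Submodule.add_mem _ ?_ ?_)
    · refine NF_mono hd tl ψ ?_ (NF_mul hd tl ψ (hG.null v) hh)
      have e1 : (n + 4) * w = 4 * w + n * w := by ring
      omega
    · rw [mem_filter] at he
      obtain ⟨j, hj⟩ := hv e he.2
      have h1 := hnull j
      rw [hj] at h1
      refine NF_mono hd tl ψ ?_ (NF_mul hd tl ψ h1 (block_DC hψ hqK hG e.1 v he.2))
      have e1 : (n + 4) * w = (n + 1) * w + 3 * w := by ring
      omega
    · rw [mem_filter] at he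
      obtain ⟨j, hj⟩ := hv e he.2
      have h1 := hdc j
      rw [hj] at h1
      have h2 : A e * (1 - X e) * h ∈ DC ψ (4 + w + n * w) :=
        DC_mul ψ (DC_mul ψ (block_DC hψ hqK hG e.1 v he.2)
          (Submodule.sub_mem _ (one_mem_DC ψ w) h1)) hh
      refine NF_mono hd tl ψ ?_ (NF_mul hd tl ψ (tree_null hψ hqK hG (.var e.1)) h2)
      have e1 : (n + 4) * w = 4 * w + n * w := by ring
      omega
  · -- the clause of two blocks
    obtain ⟨u, hue, huf⟩ := Finset.not_disjoint_iff.mp hdis
    set Y : Var q N → (E → ZMod q) → K := fun e =>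
      toK K (fun z => VB q k ρ (fun a : Var q N => a.1) y 𝓑 β z (.neg (.var e))) with hY
    set Fl : Var q N → (E → ZMod q) → K := fun e =>
      toK K (fun z => ((tr q k ρ (.neg (.var e.1))).eval (y z)).isNone) with hFl
    have hpt : ∀ e : Var q N, ∀ z, Y e z = 0 → Fl e z = 0 → e.1 ∈ y z := by
      intro e z h1 h2
      cases h3 : (tr q k ρ (.neg (.var e.1))).eval (y z) with
      | none =>
        have hF1 : Fl e z = 1 := by simp [hFl, toK, h3]
        rw [hF1] at h2
        exact absurd h2 one_ne_zero
      | some σ =>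
        obtain ⟨a1, a2, a3, a4⟩ := tr_rep (HasT.var hq e.1 ρ k hqk).neg (y z) (hG.pp z)
          (hG.ext z) σ h3
        rcases a4 with a4 | a4
        · exfalso
          have htv : tv q k ρ (y z) (.neg (.var e.1)) = true := by
            rw [tv_iff]
            exact ⟨σ, h3, a4⟩
          have hY1 : Y e z = 1 := by
            show toK K (fun z => VB q k ρ (fun a : Var q N => a.1) y 𝓑 β z (.neg (.var e))) z = 1
            exact toK_true htv
          rw [hY1] at h1
          exact one_ne_zero h1
        · simp only [W, Bool.not_false, if_true] at a4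
          exact a2 a4
    have h01 : ∀ (g : (E → ZMod q) → Bool) (z : E → ZMod q), toK K g z = 0 ∨ toK K g z = 1 := by
      intro g z
      unfold toK
      split_ifs
      · right; rfl
      · left; rfl
    have key : h = Y e * h + Y f * h * (1 - Y e) + Fl e * ((1 - Y e) * (1 - Y f) * h) +
        Fl f * ((1 - Y e) * (1 - Y f) * h * (1 - Fl e)) := by
      funext z
      simp only [Pi.add_apply, Pi.mul_apply, Pi.sub_apply, Pi.one_apply]
      rcases h01 (fun z => VB q k ρ (fun a : Var q N => a.1) y 𝓑 β z (.neg (.var e))) z with g1 | g1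
      · rcases h01 (fun z => VB q k ρ (fun a : Var q N => a.1) y 𝓑 β z (.neg (.var f))) z
          with g2 | g2
        · rcases h01 (fun z => ((tr q k ρ (.neg (.var e.1))).eval (y z)).isNone) z with g3 | g3
          · rcases h01 (fun z => ((tr q k ρ (.neg (.var f.1))).eval (y z)).isNone) z with g4 | g4
            · exfalso
              have he := hpt e z g1 g3
              have hf := hpt f z g2 g4
              exact hef (Subtype.ext ((hG.pp z).eq_of_mem he hf hue huf))
            · have g1' : Y e z = 0 := g1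
              have g2' : Y f z = 0 := g2
              have g3' : Fl e z = 0 := g3
              have g4' : Fl f z = 1 := g4
              rw [g1', g2', g3', g4']; ring
          · have g1' : Y e z = 0 := g1
            have g2' : Y f z = 0 := g2
            have g3' : Fl e z = 1 := g3
            rw [g1', g2', g3']; ring
        · have g1' : Y e z = 0 := g1
          have g2' : Y f z = 1 := g2
          rw [g1', g2']; ring
      · have g1' : Y e z = 1 := g1
        rw [g1']; ring
    have hYe : Y e * h ∈ NF hd tl ψ b ((n + 1) * w) := by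
      have h1 := hnull j; rw [hj] at h1; exact h1
    have hYf : Y f * h ∈ NF hd tl ψ b ((n + 1) * w) := by
      have h1 := hnull j'; rw [hj'] at h1; exact h1
    have dYe : (1 : (E → ZMod q) → K) - Y e ∈ DC ψ w := by
      have h1 := hdc j; rw [hj] at h1
      exact Submodule.sub_mem _ (one_mem_DC ψ w) h1
    have dYf : (1 : (E → ZMod q) → K) - Y f ∈ DC ψ w := by
      have h1 := hdc j'; rw [hj'] at h1
      exact Submodule.sub_mem _ (one_mem_DC ψ w) h1
    have dFe : (1 : (E → ZMod q) → K) - Fl e ∈ DC ψ w :=
      Submodule.sub_mem _ (one_mem_DC ψ w)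
        (DC_mono ψ (by omega) (tree_DC hψ hqK hG (.neg (.var e.1))))
    have e1 : (n + 4) * w = (n + 1) * w + 3 * w := by ring
    have e2 : (n + 4) * w = 4 * w + n * w := by ring
    rw [key]
    refine Submodule.add_mem _ (Submodule.add_mem _ (Submodule.add_mem _ ?_ ?_) ?_) ?_
    · exact NF_mono hd tl ψ (by omega) hYe
    · exact NF_mono hd tl ψ (by omega) (NF_mul hd tl ψ hYf dYe)
    · refine NF_mono hd tl ψ ?_ (NF_mul hd tl ψ (tree_null hψ hqK hG (.neg (.var e.1)))
        (DC_mul ψ (DC_mul ψ dYe dYf) hh))
      omega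
    · refine NF_mono hd tl ψ ?_ (NF_mul hd tl ψ (tree_null hψ hqK hG (.neg (.var f.1)))
        (DC_mul ψ (DC_mul ψ (DC_mul ψ dYe dYf) hh) dFe))
      omega

end

end Pool.Agent.V8H57.WF
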