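import Pool.Agent.Helper600R2.Cnt.Defs

/-!
# Constant-depth Frege refutations with `MOD p` gates, free lines and wild disjunctions

Formulas, their depth, subformulas, the conditions `RespMod`, `RespAt` and the clauses of the
counting principle are those of `Pool.Agent.Helper600R2.Cnt.Defs`. Given are a set of lines, the
free lines, which may be arbitrary formulas, and a finite set `𝓑` of disjunctions, the wild
disjunctions, which may have any number of disjuncts with `MOD p` gates.
-/

set_option autoImplicit false

namespace Pool.Agent.V8H57.WF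

open Finset Pool.Agent.Helper600R2.Cnt

variable {p : ℕ} {α : Type}

/-- The set of the disjuncts of a disjunction (empty for all other formulas). -/
def disjuncts : Fm p α → Set (Fm p α)
  | .or _ φs => Set.range φs
  | _ => ∅

/-- `𝓑` is a set of disjunctions that is a union of at most `F` chains: `κ` numbers the chains, and
of two disjunctions in the same chain one contains all disjuncts of the other. -/
def Chains (F : ℕ) (𝓑 : Finset (Fm p α)) : Prop :=
  (∀ φ ∈ 𝓑, ∃ (t : ℕ) (φs : Fin t → Fm p α), φ = .or t φs) ∧
    ∃ κ : Fm p α → ℕ, (∀ φ ∈ 𝓑, κ φ < F) ∧ ∀ φ ∈ 𝓑, ∀ φ' ∈ 𝓑, κ φ = κ φ' →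
      disjuncts φ ⊆ disjuncts φ' ∨ disjuncts φ' ⊆ disjuncts φ

open Classical in
/-- The set of the maximal subformulas that begin with a `md` connective or are disjunctions
in `𝓑`. -/
noncomputable def topsB (𝓑 : Finset (Fm p α)) : Fm p α → Finset (Fm p α)
  | .var _ => ∅
  | .neg φ => topsB 𝓑 φ
  | .or t φs => if .or t φs ∈ 𝓑 then {.or t φs} else univ.biUnion (fun j => topsB 𝓑 (φs j))
  | .md i t φs => {.md i t φs}

open Classical in
/-- The set of all subformulas of the lines that are not in `S`. -/
noncomputable def subOff {T : ℕ} (L : Fin T → Fm p α) (S : Finset (Fin T)) : Finset (Fm p α) :=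
  (univ.filter (fun i => i ∉ S)).biUnion (fun i => (L i).sub)

/-- The case `J` for a disjunction `φ`: if `V` makes `φ` true then there is a disjunct of `φ` with
the number `J φ`, and `V` makes it true. (If `J φ` is at least the number of disjuncts, this is the
case that `φ` is false.) -/
def InCase (V : Fm p α → Bool) (J : Fm p α → ℕ) : Fm p α → Prop
  | .or t φs => V (.or t φs) = true → ∃ h : J (.or t φs) < t, V (φs ⟨J (.or t φs), h⟩) = true
  | _ => True

/-- If `V` makes the disjunct number `j` of the disjunction `φ` true, then also `φ`. -/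
def IntroAt (V : Fm p α → Bool) (j : ℕ) : Fm p α → Prop
  | .or t φs => ∀ h : j < t, V (φs ⟨j, h⟩) = true → V (.or t φs) = true
  | _ => True

/-- Line `i` follows by a `c`-local inference. There is a set `Q` of at most `c` formulas of `𝒰`,
and in every case `J` (which tells for every disjunction of `Q` in `𝓑` that it is false, or a true
disjunct of it) there are a set `P` of at most `c` earlier lines and a set `E` of at most `c`
disjunctions of `𝓑` with a disjunct of each, such that the implication from the lines in `P` to
line `i` only depends on the meaning of the `md` connectives, of the outermost connectives of all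
formulas outside `𝒰` and of the formulas of `Q` that are not in `𝓑`, on the case `J`, and on the
introductions of the disjunctions in `E` from the chosen disjuncts. -/
def LocalInfW (c : ℕ) (𝒰 𝓑 : Finset (Fm p α)) {T : ℕ} (L : Fin T → Fm p α) (i : Fin T) : Prop :=
  ∃ Q : Finset (Fm p α), Q.card ≤ c ∧ Q ⊆ 𝒰 ∧ ∀ J : Fm p α → ℕ,
    ∃ (P : Finset (Fin T)) (E : Finset (Fm p α × ℕ)), P.card ≤ c ∧ E.card ≤ c ∧
      (∀ j ∈ P, j < i) ∧ (∀ e ∈ E, e.1 ∈ 𝓑) ∧
      ∀ V : Fm p α → Bool, RespMod V → (∀ χ, χ ∉ 𝒰 → RespAt V χ) →
        (∀ χ ∈ Q, χ ∉ 𝓑 → RespAt V χ) → (∀ χ ∈ Q, χ ∈ 𝓑 → InCase V J χ) →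
        (∀ e ∈ E, IntroAt V e.2 e.1) → (∀ j ∈ P, V (L j) = true) → V (L i) = true

/-- `L` is a refutation of the counting principle: some line that is not free is the empty
disjunction, and every line is a clause of the counting principle (with any side formulas) and not
free, or follows by a `c`-local inference. Here `S` is the set of the free lines. -/
def IsRefutationW (c : ℕ) {q N T : ℕ} (S : Finset (Fin T)) (𝓑 : Finset (Fm p (Var q N)))
    (L : Fin T → Fm p (Var q N)) : Prop :=
  (∃ i f, i ∉ S ∧ L i = .or 0 f) ∧
    ∀ i, (i ∉ S ∧ IsAxiom (L i)) ∨ LocalInfW c (subOff L S) 𝓑 L i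

end Pool.Agent.V8H57.WF
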