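import Pool.Agent.V8H57.WF.Tau

/-! Extending a valuation of a subformula closed set to all formulas. -/

set_option autoImplicit false
set_option linter.unusedSectionVars false

namespace Pool.Agent.V8H57.WF

open Finset Pool.Agent.Helper600R2.Cnt

variable {p : ℕ} {α : Type}

open Classical in
/-- `u` on `𝒰`, and the value given by the values of the immediate subformulas outside `𝒰` -/
noncomputable def VX (𝒰 : Finset (Fm p α)) (u : Fm p α → Bool) : Fm p α → Bool
  | .var a => u (.var a)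
  | .neg φ => if .neg φ ∈ 𝒰 then u (.neg φ) else !(VX 𝒰 u φ)
  | .or t φs => if .or t φs ∈ 𝒰 then u (.or t φs) else decide (∃ j, VX 𝒰 u (φs j) = true)
  | .md i t φs => if .md i t φs ∈ 𝒰 then u (.md i t φs) else
      decide ((∑ j, if VX 𝒰 u (φs j) = true then (1 : ZMod p) else 0) = i)

variable {𝒰 : Finset (Fm p α)} {u : Fm p α → Bool}

lemma VX_mem {φ : Fm p α} (h : φ ∈ 𝒰) : VX 𝒰 u φ = u φ := by
  classical
  cases φ with
  | var a => rfl
  | neg φ => simp only [VX, if_pos h]
  | or t φs => simp only [VX, if_pos h]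
  | md i t φs => simp only [VX, if_pos h]

lemma VX_respMod (h𝒰 : ClosedFm 𝒰) (hu : RespMod u) : RespMod (VX 𝒰 u) := by
  classical
  intro i t φs
  by_cases h : Fm.md i t φs ∈ 𝒰
  · rw [VX_mem h, hu i t φs]
    congr 2
    refine Finset.sum_congr rfl fun j _ => ?_
    rw [VX_mem (h𝒰.md i t φs h j)]
  · simp only [VX, if_neg h]

lemma VX_respAt_notMem {χ : Fm p α} (h : χ ∉ 𝒰) : RespAt (VX 𝒰 u) χ := by
  classical
  cases χ with
  | var a => trivial
  | neg φ => simp only [RespAt, VX, if_neg h]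
  | or t φs => simp only [RespAt, VX, if_neg h, decide_eq_true_eq]
  | md i t φs => trivial

lemma VX_respAt_mem (h𝒰 : ClosedFm 𝒰) {χ : Fm p α} (h : χ ∈ 𝒰) (hu : RespAt u χ) :
    RespAt (VX 𝒰 u) χ := by
  cases χ with
  | var a => trivial
  | neg φ =>
    show VX 𝒰 u (.neg φ) = !(VX 𝒰 u φ)
    rw [VX_mem h, VX_mem (h𝒰.neg φ h)]
    exact hu
  | or t φs =>
    show VX 𝒰 u (.or t φs) = true ↔ ∃ j, VX 𝒰 u (φs j) = true
    rw [VX_mem h]
    simp only [VX_mem (h𝒰.or t φs h _)]
    exact hu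
  | md i t φs => trivial

lemma VX_inCase (h𝒰 : ClosedFm 𝒰) {J : Fm p α → ℕ} {χ : Fm p α} (h : χ ∈ 𝒰)
    (hu : InCase u J χ) : InCase (VX 𝒰 u) J χ := by
  cases χ with
  | var a => trivial
  | neg φ => trivial
  | or t φs =>
    intro h1
    rw [VX_mem h] at h1
    obtain ⟨h2, h3⟩ := hu h1
    exact ⟨h2, by rw [VX_mem (h𝒰.or t φs h _)]; exact h3⟩
  | md i t φs => trivial

lemma VX_introAt (h𝒰 : ClosedFm 𝒰) {m : ℕ} {χ : Fm p α} (h : χ ∈ 𝒰)
    (hu : IntroAt u m χ) : IntroAt (VX 𝒰 u) m χ := by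
  cases χ with
  | var a => trivial
  | neg φ => trivial
  | or t φs =>
    intro hm h1
    rw [VX_mem (h𝒰.or t φs h _)] at h1
    rw [VX_mem h]
    exact hu hm h1
  | md i t φs => trivial

lemma subOff_closed {T : ℕ} (L : Fin T → Fm p α) (S : Finset (Fin T)) :
    ClosedFm (subOff L S) := by
  classical
  refine ⟨?_, ?_, ?_⟩
  · intro χ hχ
    simp only [subOff, mem_biUnion] at hχ ⊢
    obtain ⟨i, hi', hi⟩ := hχ
    exact ⟨i, hi', (sub_closed (L i)).neg χ hi⟩
  · intro t φs hχ j
    simp only [subOff, mem_biUnion] at hχ ⊢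
    obtain ⟨i, hi', hi⟩ := hχ
    exact ⟨i, hi', (sub_closed (L i)).or t φs hi j⟩
  · intro i' t φs hχ j
    simp only [subOff, mem_biUnion] at hχ ⊢
    obtain ⟨i, hi', hi⟩ := hχ
    exact ⟨i, hi', (sub_closed (L i)).md i' t φs hi j⟩

lemma mem_subOff {T : ℕ} (L : Fin T → Fm p α) {S : Finset (Fin T)} {i : Fin T} (h : i ∉ S) :
    L i ∈ subOff L S := by
  classical
  simp only [subOff, mem_biUnion, mem_filter, mem_univ, true_and]
  exact ⟨i, h, self_mem_sub _⟩

/-- merging the premises of free lines -/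
lemma merge {X : Type} {T : ℕ} (S : Finset (Fin T)) (f : Fin T → X → Bool)
    (P : Fin T → Finset (Fin T)) (Q : Fin T → Finset (X → Bool)) (m : ℕ)
    (hcard : ∀ i, (P i).card + (Q i).card ≤ m) (hlt : ∀ i, ∀ j ∈ P i, j < i)
    (hs : ∀ i z, (∀ j ∈ P i, f j z = true) → (∀ g ∈ Q i, g z = false) → f i z = true)
    (i : Fin T) :
    ∃ (P' : Finset (Fin T)) (Q' : Finset (X → Bool)), P'.card + Q'.card ≤ (S.card + 1) * m ∧
      (∀ j ∈ P', j < i ∧ j ∉ S) ∧ (∀ g ∈ Q', ∃ i', g ∈ Q i') ∧
      ∀ z, (∀ j ∈ P', f j z = true) → (∀ g ∈ Q', g z = false) → f i z = true := by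
  classical
  set S' : Finset (Fin T) := insert i (S.filter (fun l => l < i)) with hS'
  refine ⟨(S'.biUnion P).filter (fun j => j ∉ S), S'.biUnion Q, ?_, ?_, ?_, ?_⟩
  · have h1 : ((S'.biUnion P).filter (fun j => j ∉ S)).card ≤ ∑ l ∈ S', (P l).card :=
      (card_filter_le _ _).trans card_biUnion_le
    have h2 : (S'.biUnion Q).card ≤ ∑ l ∈ S', (Q l).card := card_biUnion_le
    have h3 : ∑ l ∈ S', (P l).card + ∑ l ∈ S', (Q l).card ≤ S'.card * m := by
      rw [← Finset.sum_add_distrib, ← smul_eq_mul]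
      exact Finset.sum_le_card_nsmul _ _ _ (fun l _ => hcard l)
    have h4 : S'.card ≤ S.card + 1 :=
      (card_insert_le _ _).trans (Nat.succ_le_succ (card_filter_le _ _))
    have h5 := Nat.mul_le_mul_right m h4
    omega
  · intro j hj
    rw [mem_filter, mem_biUnion] at hj
    obtain ⟨⟨l, hl, hjl⟩, hjS⟩ := hj
    refine ⟨?_, hjS⟩
    rcases mem_insert.1 hl with rfl | hl
    · exact hlt l j hjl
    · exact (hlt l j hjl).trans (mem_filter.1 hl).2
  · intro g hg
    obtain ⟨l, _, hgl⟩ := mem_biUnion.1 hg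
    exact ⟨l, hgl⟩
  · intro z hP hQ
    have key : ∀ n : ℕ, ∀ l : Fin T, l.val = n → l ∈ S' → f l z = true := by
      intro n
      induction n using Nat.strong_induction_on with
      | _ n ih =>
        intro l hn hl
        apply hs l z
        · intro j hj
          by_cases hjS : j ∈ S
          · have hjl := hlt l j hj
            have hji : j < i := by
              rcases mem_insert.1 hl with rfl | hl
              · exact hjl
              · exact hjl.trans (mem_filter.1 hl).2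
            exact ih j.val (by rw [← hn]; exact hjl) j rfl
              (mem_insert_of_mem (mem_filter.2 ⟨hjS, hji⟩))
          · exact hP j (mem_filter.2 ⟨mem_biUnion.2 ⟨l, hl, hj⟩, hjS⟩)
        · intro g hg
          exact hQ g (mem_biUnion.2 ⟨l, hl, hg⟩)
    exact key i.val i rfl (mem_insert_self _ _)

end Pool.Agent.V8H57.WF
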