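import Pool.Agent.V8H57.WF.Main
import Pool.Agent.Helper600R2.Cnt.Final

/-! Choice of parameters. -/

set_option autoImplicit false
set_option linter.unusedSectionVars false

namespace Pool.Agent.V8H57.WF

open Finset Filter Pool.Agent.Helper600R2 Pool.Agent.Helper600R2.Cnt

/-- the combinatorial core with explicit parameters -/
theorem wild_core (p q : ℕ) (hp : p.Prime) (hq : 2 ≤ q) (hpq : ¬ p ∣ q) (d c : ℕ) :
    ∃ C : ℕ, 0 < C ∧ ∀ N Y : ℕ, 1 ≤ Y →
      (C * (q * Y) ^ (d + 3)) ^ ((2 * (q * q + q) + 4) ^ d) ≤ N →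
      ∀ (T : ℕ) (L : Fin T → Fm p (Var q N)) (S : Finset (Fin T))
        (𝓑 : Finset (Fm p (Var q N))), S.card ≤ Y → 𝓑 ⊆ subOff L S →
        Chains Y 𝓑 → IsRefutationW c S 𝓑 L →
        (∀ φ ∈ subOff L S, φ.depth ≤ d) → (∀ φ ∈ subOff L S, (topsB 𝓑 φ).card + 1 ≤ Y) →
        16 ^ Y < (subOff L S).card * 2 ^ (Y - 1) := by
  classical
  have : Fact p.Prime := ⟨hp⟩
  have : NeZero q := ⟨by omega⟩
  have hp1 : 1 ≤ p := hp.one_le
  set C1 : ℕ := 20 + 4 * p * (2 * p) ^ d + 4 * (2 * p) ^ d with hC1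
  set C : ℕ := 240 * q * (2 * (6 * c + 7) * C1 + 1) + q * (d + 2) + 32 with hC
  refine ⟨C, by omega, ?_⟩
  intro N Y hY hN T L S 𝓑 hS hB hch href hdepth htops
  by_contra hcon
  push Not at hcon
  set w : ℕ := 2 * (q * q + q) + 4 with hw
  set k : ℕ := q * Y with hk
  set m : ℕ := C * k ^ (d + 3) with hm
  have hk1 : 1 ≤ k := Nat.mul_pos (by omega) hY
  have hkpow : k ≤ k ^ (d + 3) := Nat.le_self_pow (by omega) k
  have hmk : C * k ≤ m := Nat.mul_le_mul_left C hkpow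
  have hmC : C ≤ m := Nat.le_mul_of_pos_right C (Nat.pow_pos hk1)
  have hm32 : 32 ≤ m := by omega
  have hmk' : k ≤ m := by
    refine le_trans ?_ hmk
    exact Nat.le_mul_of_pos_left k (by omega)
  have hqk : q ≤ k := Nat.le_mul_of_pos_right q hY
  have hmq : q ≤ m := hqk.trans hmk'
  have hm1 : 1 ≤ m := by omega
  -- the sizes
  let Asz : ℕ → ℕ := fun h => if h = 0 then N else m ^ (w ^ (d - h))
  have hAm : ∀ h, 1 ≤ h → m ≤ Asz h := by
    intro h hh
    simp only [Asz, if_neg (show h ≠ 0 by omega)]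
    exact Nat.le_self_pow (by positivity) m
  have hAstep : ∀ h < d, Asz (h + 1) ^ w ≤ Asz h := by
    intro h hh
    have e1 : Asz (h + 1) = m ^ (w ^ (d - (h + 1))) := by
      simp only [Asz, if_neg (show h + 1 ≠ 0 by omega)]
    have e2 : w ^ (d - (h + 1)) * w = w ^ (d - h) := by
      rw [← pow_succ]; congr 1; omega
    rw [e1, ← pow_mul, e2]
    by_cases h0 : h = 0
    · subst h0
      simp only [Asz, if_true, Nat.sub_zero]
      exact hN
    · simp only [Asz, if_neg h0]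
      exact le_rfl
  have hmN : m ≤ N := by
    refine le_trans ?_ hN
    exact Nat.le_self_pow (by positivity) m
  have hAN : ∀ h ≤ d, Asz h ≤ N := by
    intro h hh
    by_cases h0 : h = 0
    · simp only [Asz, h0, if_true]; exact le_rfl
    · simp only [Asz, if_neg h0]
      refine le_trans ?_ hN
      exact Nat.pow_le_pow_right hm1 (Nat.pow_le_pow_right (by omega) (by omega))
  let b : ℕ → ℕ := fun h => (N - Asz h) / q
  have hb0 : b 0 = 0 := by simp [b, Asz]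
  have hstep : ∀ h < d, q * b (h + 1) < N ∧ b h ≤ b (h + 1) ∧
      16 * (2 * k * ((N - q * b (h + 1)) ^ q) ^ q * (N - q * b (h + 1)) ^ q) ≤
        b (h + 1) - b h := by
    intro h hh
    have hm' := hAm (h + 1) (by omega)
    exact num_step (by omega) (hm32.trans hm') (hmq.trans hm') (hmk'.trans hm')
      (hAstep h hh) (hAN h (by omega))
  -- the family
  set 𝒰 := subOff L S with h𝒰
  have hfamcard : (famB (N := N) (fun a : Var q N => a.1) 𝓑 𝒰).card ≤ 16 ^ Y :=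
    (famB_card _ 𝒰 (Y - 1) (fun φ hφ => by have := htops φ hφ; omega)).trans hcon
  obtain ⟨ρ, hρ1, hρ2, hρ3⟩ := levels (q := q) (k := k) (D := Y) (by omega) hY rfl
    (famB (N := N) (fun a : Var q N => a.1) 𝓑 𝒰) (famB_closed _ (subOff_closed L S)) hfamcard b hb0 d
    hstep d le_rfl
  have hT : ∀ χ ∈ famB (N := N) (fun a : Var q N => a.1) 𝓑 𝒰, HasT q k χ ρ k := by
    intro χ hχ
    apply hρ3 χ hχ
    obtain ⟨φ, hφ, μ, rfl⟩ := exists_of_mem_famB _ hχ
    exact (substB_dep _ μ φ).trans (hdepth φ hφ)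
  -- the free part
  have hfree : m ≤ N - q * ρ.card ∧ q * ρ.card ≤ N := by
    rw [hρ2]
    by_cases hd0 : d = 0
    · rw [hd0, hb0]
      simp only [mul_zero, Nat.sub_zero, Nat.zero_le, and_true]
      exact hmN
    · have h1 : Asz d = m := by
        simp only [Asz, if_neg hd0, Nat.sub_self, pow_zero, pow_one]
      have h2 : q * b d ≤ N - m := by
        simp only [b, h1]
        exact Nat.mul_div_le _ _
      omega
  -- the graph
  set n : ℕ := m / (4 * q) with hn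
  have hww : ww k p (Y - 1) d ≤ C1 * k ^ (d + 2) :=
    ww_le hp1 hk1 le_rfl (by
      have : Y ≤ k := Nat.le_mul_of_pos_left Y (by omega)
      omega)
  set M1 : ℕ := (Y + (Y + 1) * (3 * c + 2) + 2) * ww k p (Y - 1) d with hM1
  have hM1le : M1 ≤ (6 * c + 7) * C1 * k ^ (d + 3) := by
    have hYk : Y ≤ k := Nat.le_mul_of_pos_left Y (by omega)
    have h1 : Y + (Y + 1) * (3 * c + 2) + 2 ≤ (6 * c + 7) * k := by
      have h2 : (Y + 1) * (3 * c + 2) ≤ (Y + Y) * (3 * c + 2) := Nat.mul_le_mul_right _ (by omega)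
      have h3 : (Y + Y) * (3 * c + 2) = (6 * c + 4) * Y := by ring
      have h4 : (6 * c + 7) * Y ≤ (6 * c + 7) * k := Nat.mul_le_mul_left _ hYk
      have h5 : (6 * c + 7) * Y = (6 * c + 4) * Y + 3 * Y := by ring
      omega
    calc M1 ≤ ((6 * c + 7) * k) * (C1 * k ^ (d + 2)) := Nat.mul_le_mul h1 hww
      _ = (6 * c + 7) * C1 * k ^ (d + 3) := by rw [pow_succ k (d + 2)]; ring
  have hmbig : 240 * q * (2 * M1 + 1) ≤ m := by
    calc 240 * q * (2 * M1 + 1)
        ≤ 240 * q * (2 * ((6 * c + 7) * C1 * k ^ (d + 3)) + 1 * k ^ (d + 3)) := by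
          apply Nat.mul_le_mul_left
          apply Nat.add_le_add
          · exact Nat.mul_le_mul_left _ hM1le
          · rw [one_mul]; exact Nat.one_le_pow _ _ hk1
      _ = (240 * q * (2 * (6 * c + 7) * C1 + 1)) * k ^ (d + 3) := by ring
      _ ≤ C * k ^ (d + 3) := Nat.mul_le_mul_right _ (by omega)
  have hn1 : 60 * (2 * M1 + 1) ≤ n := by
    rw [hn, Nat.le_div_iff_mul_le (by omega)]
    refine le_trans (le_of_eq ?_) hmbig
    ring
  have hn25 : 25 ≤ n := by omega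
  obtain ⟨π, hπ⟩ := exists_expander hn25
  have h4q : 4 * q * n ≤ m := Nat.mul_div_le m (4 * q)
  -- the field
  have hqK : (q : AlgebraicClosure (ZMod p)) ≠ 0 := by
    intro h
    rw [CharP.cast_eq_zero_iff (AlgebraicClosure (ZMod p)) p q] at h
    exact hpq h
  have : NeZero (q : ZMod p) := ⟨by
    intro h
    rw [CharP.cast_eq_zero_iff (ZMod p) p q] at h
    exact hpq h⟩
  obtain ⟨ζ, hζ⟩ := HasEnoughRootsOfUnity.exists_primitiveRoot (AlgebraicClosure (ZMod p)) q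
  have hprim := AddChar.zmodChar_primitive_of_primitive_root q hζ
  refine no_refutationW (Vt := Fin n) (E := Fin n × Bool) (ghd π) gtl _ hprim hqK
    (by rw [Fintype.card_fin]; omega) (inc_card π) c d k (Y - 1) Y Y hk1 hqk (graph_conn π)
    (graph_exp π hπ ?_) ρ hρ1 ?_ L S hS 𝓑 hB hch href hdepth ?_ ?_ hT
  · have h1 : 60 * (2 * M1) ≤ n := by
      refine le_trans ?_ hn1
      apply Nat.mul_le_mul_left
      exact Nat.le_succ _
    rw [Nat.le_div_iff_mul_le (by norm_num)]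
    omega
  · have h1 : Fintype.card (Fin n × Bool) * (2 * (q - 1)) ≤ 4 * q * n := by
      rw [Fintype.card_prod, Fintype.card_fin, Fintype.card_bool]
      calc n * 2 * (2 * (q - 1)) = (q - 1) * (4 * n) := by ring
        _ ≤ q * (4 * n) := Nat.mul_le_mul_right _ (Nat.sub_le q 1)
        _ = 4 * q * n := by ring
    omega
  · intro φ hφ
    have := htops φ hφ
    omega
  · have h1 : q * (2 * k + k * d) ≤ m := by
      calc q * (2 * k + k * d) = q * (d + 2) * k := by ring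
        _ ≤ C * k := Nat.mul_le_mul_right k (by omega)
        _ ≤ m := hmk
    have h2 : q * (ρ.card + 2 * k + k * d) = q * ρ.card + q * (2 * k + k * d) := by ring
    rw [h2]
    omega



lemma Chains.mono {p : ℕ} {α : Type} {F F' : ℕ} (h : F ≤ F') {𝓑 : Finset (Fm p α)}
    (hc : Chains F 𝓑) : Chains F' 𝓑 := by
  obtain ⟨h1, κ, h2, h3⟩ := hc
  exact ⟨h1, κ, fun φ hφ => (h2 φ hφ).trans_le h, h3⟩

/-- the asymptotic form -/
theorem wild_exp (p q : ℕ) (hp : p.Prime) (hq : 2 ≤ q) (hpq : ¬ p ∣ q) (d c : ℕ) :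
    ∃ ε : ℝ, 0 < ε ∧ ∃ N₀ : ℕ, ∀ N : ℕ, N₀ ≤ N →
      ∀ (T : ℕ) (L : Fin T → Fm p (Var q N)) (S : Finset (Fin T))
        (𝓑 : Finset (Fm p (Var q N))) (F : ℕ), (S.card : ℝ) ≤ (N : ℝ) ^ ε →
        𝓑 ⊆ subOff L S → (F : ℝ) ≤ (N : ℝ) ^ ε → Chains F 𝓑 → IsRefutationW c S 𝓑 L →
        (∀ φ ∈ subOff L S, φ.depth ≤ d) →
        (∀ φ ∈ subOff L S, ((topsB 𝓑 φ).card : ℝ) ≤ (N : ℝ) ^ ε) →
        (2 : ℝ) ^ ((N : ℝ) ^ ε) ≤ ((subOff L S).card : ℝ) := by
  obtain ⟨C, hC0, hC⟩ := wild_core p q hp hq hpq d c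
  set W : ℕ := (2 * (q * q + q) + 4) ^ d with hW
  have hW0 : 0 < W := by positivity
  set e : ℕ := (d + 3) * W with he
  have he0 : 0 < e := Nat.mul_pos (by omega) hW0
  have her : (0 : ℝ) < e := by exact_mod_cast he0
  set ε : ℝ := 1 / (2 * e) with hε
  have hε0 : 0 < ε := by positivity
  set C4 : ℕ := (C * (2 * q) ^ (d + 3)) ^ W with hC4
  refine ⟨ε, hε0, C4 ^ 2 + 1, ?_⟩
  intro N hN T L S 𝓑 F hSN hB hF hch href hdepth htops
  have hN1 : (1 : ℝ) ≤ N := by
    have : 1 ≤ N := by omega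
    exact_mod_cast this
  have hx1 : (1 : ℝ) ≤ (N : ℝ) ^ ε := Real.one_le_rpow hN1 hε0.le
  set Y : ℕ := ⌊(N : ℝ) ^ ε⌋₊ + 1 with hY
  have hYle : (Y : ℝ) ≤ 2 * (N : ℝ) ^ ε := by
    have := Nat.floor_le (by linarith : 0 ≤ (N : ℝ) ^ ε)
    rw [hY]; push_cast; linarith
  have hYge : (N : ℝ) ^ ε < Y := by
    rw [hY]; push_cast; exact Nat.lt_floor_add_one _
  have hcond : (C * (q * Y) ^ (d + 3)) ^ W ≤ N := by
    have h1 : (((C * (q * Y) ^ (d + 3)) ^ W : ℕ) : ℝ) ≤ (N : ℝ) := by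
      push_cast
      have h2 : ((C : ℝ) * (q * Y) ^ (d + 3)) ^ W ≤
          ((C : ℝ) * (q * (2 * (N : ℝ) ^ ε)) ^ (d + 3)) ^ W := by
        apply pow_le_pow_left₀ (by positivity)
        apply mul_le_mul_of_nonneg_left _ (by positivity)
        apply pow_le_pow_left₀ (by positivity)
        exact mul_le_mul_of_nonneg_left hYle (by positivity)
      refine h2.trans ?_
      have h3 : ((C : ℝ) * (q * (2 * (N : ℝ) ^ ε)) ^ (d + 3)) ^ W =
          (C4 : ℝ) * ((N : ℝ) ^ ε) ^ e := by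
        rw [hC4, he, pow_mul ((N : ℝ) ^ ε)]
        push_cast
        rw [← mul_pow]
        congr 1
        ring
      have h4 : ((N : ℝ) ^ ε) ^ e = (N : ℝ) ^ (1 / 2 : ℝ) := by
        rw [← Real.rpow_natCast, ← Real.rpow_mul (by linarith)]
        congr 1
        rw [hε]; field_simp
      have h5 : (C4 : ℝ) ≤ (N : ℝ) ^ (1 / 2 : ℝ) := by
        rw [← Real.sqrt_eq_rpow]
        apply Real.le_sqrt_of_sq_le
        have : C4 ^ 2 ≤ N := by omega
        exact_mod_cast this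
      rw [h3, h4]
      calc (C4 : ℝ) * (N : ℝ) ^ (1 / 2 : ℝ)
          ≤ (N : ℝ) ^ (1 / 2 : ℝ) * (N : ℝ) ^ (1 / 2 : ℝ) :=
            mul_le_mul_of_nonneg_right h5 (by positivity)
        _ = N := by
            rw [← Real.rpow_add (by linarith)]; norm_num
    exact_mod_cast h1
  have hFY : F ≤ Y := by
    have h1 : (F : ℝ) ≤ Y := hF.trans hYge.le
    exact_mod_cast h1
  have hSY : S.card ≤ Y := by
    have h1 : (S.card : ℝ) ≤ Y := hSN.trans hYge.le
    exact_mod_cast h1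
  have hmain := hC N Y (by omega) hcond T L S 𝓑 hSY hB (hch.mono hFY) href hdepth (by
    intro φ hφ
    have h1 : (topsB 𝓑 φ).card ≤ ⌊(N : ℝ) ^ ε⌋₊ := Nat.le_floor (htops φ hφ)
    omega)
  have h1 : 2 ^ Y ≤ (subOff L S).card := by
    by_contra hlt
    push Not at hlt
    have h2 : (subOff L S).card * 2 ^ (Y - 1) ≤ 2 ^ Y * 2 ^ (Y - 1) :=
      Nat.mul_le_mul_right _ hlt.le
    have h3 : 2 ^ Y * 2 ^ (Y - 1) ≤ 2 ^ Y * 2 ^ Y :=
      Nat.mul_le_mul_left _ (Nat.pow_le_pow_right (by norm_num) (by omega))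
    have h4 : 2 ^ Y * 2 ^ Y = 4 ^ Y := by rw [← mul_pow]; norm_num
    have h5 : 4 ^ Y ≤ 16 ^ Y := Nat.pow_le_pow_left (by norm_num) Y
    omega
  calc (2 : ℝ) ^ ((N : ℝ) ^ ε) ≤ (2 : ℝ) ^ (Y : ℝ) :=
        Real.rpow_le_rpow_of_exponent_le (by norm_num) hYge.le
    _ = ((2 ^ Y : ℕ) : ℝ) := by rw [Real.rpow_natCast]; push_cast; rfl
    _ ≤ _ := by exact_mod_cast h1

end Pool.Agent.V8H57.WF
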