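import Pool.Agent.V8H57.WF.Val

/-! The choice of the values of the wild disjunctions. -/

set_option autoImplicit false
set_option linter.unusedSectionVars false

namespace Pool.Agent.V8H57.WF

open Finset Pool.Agent.Helper600R2 Pool.Agent.Helper600R2.Cnt

section key

variable {p : ℕ} {α : Type}

lemma depth_le_of_subset {t t' : ℕ} {φs : Fin t → Fm p α} {φs' : Fin t' → Fm p α}
    (h : disjuncts (.or t φs) ⊆ disjuncts (.or t' φs')) :
    (Fm.or t φs).depth ≤ (Fm.or t' φs').depth := by
  simp only [Fm.depth, Nat.add_le_add_iff_right]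
  refine Finset.sup_le fun j _ => ?_
  obtain ⟨j', hj'⟩ := h (show φs j ∈ disjuncts (.or t φs) from ⟨j, rfl⟩)
  rw [← hj']
  exact Finset.le_sup (f := fun j => (φs' j).depth) (mem_univ j')

/-- the order in which the wild disjunctions are considered -/
noncomputable def key (φ : Fm p α) : ℕ ×ₗ ℕ := toLex (φ.depth, (disjuncts φ).ncard)

lemma key_le {φ φ' : Fm p α} (h : key φ ≤ key φ') :
    φ.depth ≤ φ'.depth ∧ (φ.depth = φ'.depth → (disjuncts φ).ncard ≤ (disjuncts φ').ncard) := by
  unfold key at h
  rw [Prod.Lex.toLex_le_toLex] at h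
  rcases h with h | ⟨h1, h2⟩
  · exact ⟨le_of_lt h, fun h' => by simp only at h; omega⟩
  · exact ⟨le_of_eq h1, fun _ => h2⟩

lemma subset_of_key {t t' : ℕ} {φs : Fin t → Fm p α} {φs' : Fin t' → Fm p α}
    (h : key (.or t φs) ≤ key (.or t' φs'))
    (h' : disjuncts (.or t φs) ⊆ disjuncts (.or t' φs') ∨
      disjuncts (.or t' φs') ⊆ disjuncts (.or t φs)) :
    disjuncts (.or t φs) ⊆ disjuncts (.or t' φs') := by
  rcases h' with h' | h'
  · exact h'
  · obtain ⟨h1, h2⟩ := key_le h
    have h3 := depth_le_of_subset h'
    have h4 := h2 (le_antisymm h1 h3)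
    have hfin : (disjuncts (.or t φs)).Finite := Set.finite_range φs
    exact (Set.eq_of_subset_of_ncard_le h' h4 hfin).ge

end key

section

variable {Vt E : Type} [Fintype Vt] [Fintype E] [DecidableEq Vt] [DecidableEq E]
  {hd tl : E → Vt} {q : ℕ} [NeZero q] {K : Type*} [Field K] {ψ : AddChar (ZMod q) K}
  {b : Vt → ZMod q} {N : ℕ} {ρ : PS N} {y : (E → ZMod q) → PS N}
  {p : ℕ} [Fact p.Prime] [CharP K p] {α : Type} {blk : α → Finset (Fin N)} {k : ℕ}
  {𝓑 : Finset (Fm p α)}

open Classical in
/-- the values of the wild disjunctions: a disjunction gets the value false if all its disjuncts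
are negligible below `h`, and otherwise one of its disjuncts is true below `h` -/
theorem greedy (hψ : ψ.IsPrimitive) (hqK : (q : K) ≠ 0) (hG : Good hd tl ψ b N ρ y)
    {𝒰 : Finset (Fm p α)} (h𝒰 : ClosedFm 𝒰) (G d : ℕ)
    (hw : ∀ φ ∈ 𝒰, (topsB 𝓑 φ).card ≤ G) (hd' : ∀ φ ∈ 𝒰, φ.depth ≤ d) {D : ℕ}
    (hdown : ∀ w' ≤ D, ∀ g ∈ DC ψ w', g ∈ NF hd tl ψ b D → g ∈ NF hd tl ψ b w')
    (hone : (1 : (E → ZMod q) → K) ∉ NF hd tl ψ b D) {F : ℕ}
    (hF : (F + 1) * ww k p G d ≤ D) (hB : 𝓑 ⊆ 𝒰) (hch : Chains F 𝓑) :
    ∃ (β : Fm p α → Bool) (h : (E → ZMod q) → K) (n : ℕ), n ≤ F ∧ h ∈ DC ψ (n * ww k p G d) ∧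
      h ∉ NF hd tl ψ b D ∧ ∀ (t : ℕ) (φs : Fin t → Fm p α), Fm.or t φs ∈ 𝓑 →
        (β (.or t φs) = false ∧ ∀ j, toK K (fun z => VB q k ρ blk y 𝓑 β z (φs j)) * h ∈
          NF hd tl ψ b ((n + 1) * ww k p G d)) ∨
        (β (.or t φs) = true ∧ ∃ j, (1 - toK K (fun z => VB q k ρ blk y 𝓑 β z (φs j))) * h = 0) := by
  obtain ⟨hor, κ, hκF, hκ⟩ := hch
  set w : ℕ := ww k p G d with hw0
  have hcardF : ∀ s : Finset (Fm p α), s ⊆ 𝓑 → (s.image κ).card ≤ F := by
    intro s hs
    have h1 : s.image κ ⊆ range F := by
      intro m hm
      obtain ⟨φ, hφ, rfl⟩ := mem_image.1 hm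
      exact mem_range.2 (hκF φ (hs hφ))
    exact (card_le_card h1).trans (by rw [card_range])
  have main : ∀ s : Finset (Fm p α), s ⊆ 𝓑 →
      ∃ (β : Fm p α → Bool) (h : (E → ZMod q) → K) (n : ℕ),
        n ≤ ((s.filter (fun φ => β φ = true)).image κ).card ∧ h ∈ DC ψ (n * w) ∧
        h ∉ NF hd tl ψ b D ∧ ∀ (t : ℕ) (φs : Fin t → Fm p α), Fm.or t φs ∈ s →
          (β (.or t φs) = false ∧ ∀ j, toK K (fun z => VB q k ρ blk y 𝓑 β z (φs j)) * h ∈
            NF hd tl ψ b ((n + 1) * w)) ∨
          (β (.or t φs) = true ∧
            ∃ j, (1 - toK K (fun z => VB q k ρ blk y 𝓑 β z (φs j))) * h = 0) := by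
    intro s
    induction s using Finset.induction_on_max_value key with
    | empty =>
      intro _
      refine ⟨fun _ => false, 1, 0, Nat.zero_le _, one_mem_DC ψ _, hone, ?_⟩
      intro t φs hm
      exact absurd hm (notMem_empty _)
    | insert a s has hmax ih =>
      intro hs
      have haB : a ∈ 𝓑 := hs (mem_insert_self _ _)
      obtain ⟨β, h, n, i1, i2, i3, i4⟩ := ih (fun x hx => hs (mem_insert_of_mem hx))
      have hsB : s ⊆ 𝓑 := fun x hx => hs (mem_insert_of_mem hx)
      have hnF : n ≤ F := i1.trans (hcardF _ ((filter_subset _ _).trans hsB))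
      obtain ⟨t, φs, hat⟩ := hor a haB
      set upd : Bool → Fm p α → Bool := fun v χ => if χ = a then v else β χ with hupd
      have hcg : ∀ v (χ : Fm p α), χ.depth < a.depth → ∀ z,
          VB (p := p) q k ρ blk y 𝓑 (upd v) z χ = VB (p := p) q k ρ blk y 𝓑 β z χ := by
        intro v χ hχ z
        refine VB_congr z χ (fun χ' hχ' => ?_)
        have hne : χ' ≠ a := by
          rintro rfl
          omega
        simp only [hupd, if_neg hne]
      have hupds : ∀ v, ∀ x ∈ s, upd v x = β x := by
        intro v x hx
        have hne : x ≠ a := by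
          rintro rfl
          exact has hx
        simp only [hupd, if_neg hne]
      have hupda : ∀ v, upd v a = v := fun v => by simp only [hupd, if_true]
      -- the disjuncts of the members of `s` and of `a` have smaller depth than `a`
      have hds : ∀ (t' : ℕ) (φs' : Fin t' → Fm p α), Fm.or t' φs' ∈ s → ∀ j,
          (φs' j).depth < a.depth := by
        intro t' φs' hm j
        have h1 := (key_le (hmax _ hm)).1
        have h2 := depth_le_or φs' j
        omega
      have hda : ∀ j, (φs j).depth < a.depth := by
        intro j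
        rw [hat]
        have h2 := depth_le_or φs j
        omega
      have himg : ∀ v, (s.filter (fun φ => β φ = true)).image κ ⊆
          ((insert a s).filter (fun φ => upd v φ = true)).image κ := by
        intro v m hm
        obtain ⟨φ, hφ, rfl⟩ := mem_image.1 hm
        rw [mem_filter] at hφ
        refine mem_image_of_mem _ (mem_filter.2 ⟨mem_insert_of_mem hφ.1, ?_⟩)
        rw [hupds v φ hφ.1]
        exact hφ.2
      -- the members of `s` with the new values
      have hold : ∀ v, ∀ (t' : ℕ) (φs' : Fin t' → Fm p α), Fm.or t' φs' ∈ s →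
          (upd v (.or t' φs') = false ∧
            ∀ j, toK K (fun z => VB q k ρ blk y 𝓑 (upd v) z (φs' j)) * h ∈
            NF hd tl ψ b ((n + 1) * w)) ∨
          (upd v (.or t' φs') = true ∧
            ∃ j, (1 - toK K (fun z => VB q k ρ blk y 𝓑 (upd v) z (φs' j))) * h = 0) := by
        intro v t' φs' hm
        have h1 : ∀ j, (fun z => VB (p := p) q k ρ blk y 𝓑 (upd v) z (φs' j)) =
            fun z => VB (p := p) q k ρ blk y 𝓑 β z (φs' j) := fun j =>
          funext fun z => hcg v _ (hds t' φs' hm j) z
        rw [hupds v _ hm]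
        simp only [h1]
        exact i4 t' φs' hm
      by_cases hA : ∃ φ' ∈ s, κ φ' = κ a ∧ β φ' = true
      · -- the chain of `a` has a true member already
        obtain ⟨φ', hφ's, hκe, hφ't⟩ := hA
        refine ⟨upd true, h, n, i1.trans (card_le_card (himg true)), i2, i3, ?_⟩
        intro t' φs' hm
        rcases mem_insert.1 hm with hm | hm
        · right
          refine ⟨by rw [hm, hupda], ?_⟩
          obtain ⟨t'', φs'', hφ'e⟩ := hor φ' (hsB hφ's)
          have hsub : disjuncts φ' ⊆ disjuncts a := by
            rw [hφ'e, hat]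
            apply subset_of_key
            · rw [← hφ'e, ← hat]; exact hmax _ hφ's
            · rw [← hφ'e, ← hat]; exact hκ φ' (hsB hφ's) a haB hκe
          have h4 := i4 t'' φs'' (by rw [← hφ'e]; exact hφ's)
          rw [← hφ'e] at h4
          rcases h4 with ⟨h4, _⟩ | ⟨_, j, hj⟩
          · rw [hφ't] at h4; exact absurd h4 (by simp)
          · have h5 : φs'' j ∈ disjuncts a := hsub (by rw [hφ'e]; exact ⟨j, rfl⟩)
            rw [← hm] at h5
            obtain ⟨j', hj'⟩ := h5
            refine ⟨j', ?_⟩
            have h6 : (fun z => VB (p := p) q k ρ blk y 𝓑 (upd true) z (φs' j')) =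
                fun z => VB (p := p) q k ρ blk y 𝓑 β z (φs'' j) := by
              funext z
              rw [hj']
              refine hcg true _ ?_ z
              exact hds t'' φs'' (by rw [← hφ'e]; exact hφ's) j
            rw [h6]
            exact hj
        · exact hold true t' φs' hm
      · by_cases hN : ∀ j, toK K (fun z => VB q k ρ blk y 𝓑 β z (φs j)) * h ∈
            NF hd tl ψ b ((n + 1) * w)
        · -- all disjuncts of `a` are negligible
          refine ⟨upd false, h, n, i1.trans (card_le_card (himg false)), i2, i3, ?_⟩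
          intro t' φs' hm
          rcases mem_insert.1 hm with hm | hm
          · left
            refine ⟨by rw [hm, hupda], ?_⟩
            intro j
            have e1 : Fm.or t' φs' = .or t φs := hm.trans hat
            cases e1
            have h6 : (fun z => VB (p := p) q k ρ blk y 𝓑 (upd false) z (φs j)) =
                fun z => VB (p := p) q k ρ blk y 𝓑 β z (φs j) :=
              funext fun z => hcg false _ (hda j) z
            rw [h6]
            exact hN j
          · exact hold false t' φs' hm
        · -- one of the disjuncts of `a` is made true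
          push Not at hN
          obtain ⟨j, hj⟩ := hN
          set v : (E → ZMod q) → K := toK K (fun z => VB q k ρ blk y 𝓑 β z (φs j)) with hv
          have hvDC : v ∈ DC ψ w := VB_DC hψ hqK hG h𝒰 G d hw hd' _
            (h𝒰.or t φs (by rw [← hat]; exact hB haB) j)
          have hnD : (n + 1) * w ≤ D := (Nat.mul_le_mul_right w (by omega)).trans hF
          have hvh : v * h ∈ DC ψ ((n + 1) * w) := by
            have h1 := DC_mul ψ hvDC i2
            have e2 : w + n * w = (n + 1) * w := by ring
            rwa [e2] at h1
          have hvv : v * v = v := by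
            funext z
            simp only [Pi.mul_apply, hv, toK]
            split_ifs <;> ring
          refine ⟨upd true, v * h, n + 1, ?_, hvh, ?_, ?_⟩
          · have h1 : κ a ∉ (s.filter (fun φ => β φ = true)).image κ := by
              intro hmem
              obtain ⟨φ, hφ, he⟩ := mem_image.1 hmem
              rw [mem_filter] at hφ
              exact hA ⟨φ, hφ.1, he, hφ.2⟩
            have h2 : insert (κ a) ((s.filter (fun φ => β φ = true)).image κ) ⊆
                ((insert a s).filter (fun φ => upd true φ = true)).image κ := by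
              intro m hm
              rcases mem_insert.1 hm with rfl | hm
              · exact mem_image_of_mem _ (mem_filter.2 ⟨mem_insert_self _ _, hupda true⟩)
              · exact himg true hm
            have h3 := card_le_card h2
            rw [card_insert_of_notMem h1] at h3
            omega
          · intro hmem
            exact hj (hdown _ hnD _ hvh hmem)
          · intro t' φs' hm
            rcases mem_insert.1 hm with hm | hm
            · right
              refine ⟨by rw [hm, hupda], ?_⟩
              have e1 : Fm.or t' φs' = .or t φs := hm.trans hat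
              cases e1
              refine ⟨j, ?_⟩
              have h6 : (fun z => VB (p := p) q k ρ blk y 𝓑 (upd true) z (φs j)) =
                  fun z => VB (p := p) q k ρ blk y 𝓑 β z (φs j) :=
                funext fun z => hcg true _ (hda j) z
              rw [h6, ← hv]
              have e3 : (1 - v) * (v * h) = (v - v * v) * h := by ring
              rw [e3, hvv, sub_self, zero_mul]
            · rcases hold true t' φs' hm with ⟨g1, g2⟩ | ⟨g1, j', g2⟩
              · left
                refine ⟨g1, fun j' => ?_⟩
                have h7 := NF_mul hd tl ψ (g2 j') hvDC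
                have e4 : toK K (fun z => VB (p := p) q k ρ blk y 𝓑 (upd true) z (φs' j')) * h * v =
                    toK K (fun z => VB (p := p) q k ρ blk y 𝓑 (upd true) z (φs' j')) * (v * h) := by
                  ring
                rw [e4] at h7
                have e5 : (n + 1) * w + w = (n + 1 + 1) * w := by ring
                rwa [e5] at h7
              · right
                refine ⟨g1, j', ?_⟩
                have e4 : (1 - toK K (fun z => VB (p := p) q k ρ blk y 𝓑 (upd true) z (φs' j'))) *
                    (v * h) = (1 - toK K (fun z => VB (p := p) q k ρ blk y 𝓑 (upd true) z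
                      (φs' j'))) * h * v := by
                  ring
                rw [e4, g2, zero_mul]
  obtain ⟨β, h, n, i1, i2, i3, i4⟩ := main 𝓑 subset_rfl
  exact ⟨β, h, n, i1.trans (hcardF _ (filter_subset _ _)), i2, i3, i4⟩

end

end Pool.Agent.V8H57.WF
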