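import Pool.Agent.Helper600R2.Semantic

/-! The degree argument with negligible sets, below a given function. -/

set_option autoImplicit false
set_option linter.unusedSectionVars false

namespace Pool.Agent.V8H57.WF

open Finset Pool.Agent.Helper600R2

section

variable {Vt E : Type} [Fintype Vt] [Fintype E] [DecidableEq Vt] {hd tl : E → Vt} {q : ℕ}
  [NeZero q] {K : Type*} [Field K] {ψ : AddChar (ZMod q) K}

lemma prod_null {ι : Type*} [DecidableEq ι] {b : Vt → ZMod q} {w W : ℕ} (s : Finset ι)
    (g : ι → (E → ZMod q) → K) (h : (E → ZMod q) → K) (h1 : ∀ i ∈ s, g i ∈ DC ψ w)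
    (h2 : ∀ i ∈ s, (1 - g i) * h ∈ NF hd tl ψ b W) :
    (∏ i ∈ s, g i) ∈ DC ψ (s.card * w) ∧
      ((1 : (E → ZMod q) → K) - ∏ i ∈ s, g i) * h ∈ NF hd tl ψ b (W + s.card * w) := by
  induction s using Finset.induction_on with
  | empty =>
    simp only [prod_empty, sub_self, zero_mul]
    exact ⟨one_mem_DC ψ _, Submodule.zero_mem _⟩
  | insert a s ha ih =>
    obtain ⟨i1, i2⟩ := ih (fun i hi => h1 i (mem_insert_of_mem hi))
      (fun i hi => h2 i (mem_insert_of_mem hi))
    rw [prod_insert ha, card_insert_of_notMem ha, add_mul, one_mul]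
    refine ⟨?_, ?_⟩
    · rw [add_comm]
      exact DC_mul ψ (h1 a (mem_insert_self _ _)) i1
    · have h4 : ((1 : (E → ZMod q) → K) - g a * ∏ j ∈ s, g j) * h =
          ((1 - g a) * h) * (∏ j ∈ s, g j) + (1 - ∏ j ∈ s, g j) * h := by
        ring
      rw [h4]
      refine Submodule.add_mem _ ?_ (NF_mono hd tl ψ (by omega) i2)
      exact NF_mono hd tl ψ (by omega) (NF_mul hd tl ψ (h2 a (mem_insert_self _ _)) i1)

/-- all members of a sound sequence of low degree functions are true, up to negligible sets -/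
theorem sound_null {b : Vt → ZMod q} {D w n k : ℕ} (hD : (n + k + 2) * w ≤ D)
    (hdown : ∀ w' ≤ D, ∀ g ∈ DC ψ w', g ∈ NF hd tl ψ b D → g ∈ NF hd tl ψ b w')
    {h : (E → ZMod q) → K} (hh : h ∈ DC ψ (n * w))
    {T : ℕ} (f : Fin T → (E → ZMod q) → Bool)
    (hf : ∀ i, ∃ (P : Finset (Fin T)) (Q : Finset ((E → ZMod q) → Bool)),
      P.card + Q.card ≤ k ∧ (∀ j ∈ P, j < i) ∧
      (∀ g ∈ Q, toK K g ∈ DC ψ w ∧ toK K g * h ∈ NF hd tl ψ b ((n + 1) * w)) ∧
      ∀ z, (∀ j ∈ P, f j z = true) → (∀ g ∈ Q, g z = false) → f i z = true)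
    (hdeg : ∀ i, toK K (f i) ∈ DC ψ w) (i : Fin T) :
    (1 - toK K (f i)) * h ∈ NF hd tl ψ b ((n + 1) * w) := by
  classical
  have hone : ∀ i, (1 : (E → ZMod q) → K) - toK K (f i) ∈ DC ψ w := fun i =>
    Submodule.sub_mem _ (one_mem_DC ψ w) (hdeg i)
  have e1 : (n + k + 2) * w = (n + 1) * w + (k + 1) * w := by ring
  rw [e1] at hD
  have main : ∀ m : ℕ, ∀ i : Fin T, i.val = m →
      (1 - toK K (f i)) * h ∈ NF hd tl ψ b ((n + 1) * w) := by
    intro m
    induction m using Nat.strong_induction_on with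
    | _ m ih =>
      intro i hi
      have hdc : (1 - toK K (f i)) * h ∈ DC ψ ((n + 1) * w) := by
        have h1 := DC_mul ψ (hone i) hh
        have e2 : w + n * w = (n + 1) * w := by ring
        rwa [e2] at h1
      apply hdown _ (by omega) _ hdc
      obtain ⟨P, Q, hPQ, hPlt, hQ, hstep⟩ := hf i
      obtain ⟨a1, a2⟩ := prod_null (hd := hd) (tl := tl) (ψ := ψ) (b := b) (w := w)
        (W := (n + 1) * w) P (fun j => toK K (f j)) h
        (fun j _ => hdeg j) (fun j hj => by
          have := hPlt j hj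
          exact ih j.val (by have := Fin.lt_def.mp this; omega) j rfl)
      obtain ⟨b1, b2⟩ := prod_null (hd := hd) (tl := tl) (ψ := ψ) (b := b) (w := w)
        (W := (n + 1) * w) Q (fun g => 1 - toK K g) h
        (fun g hg => Submodule.sub_mem _ (one_mem_DC ψ w) (hQ g hg).1)
        (fun g hg => by
          have e3 : (1 - (1 - toK K g)) * h = toK K g * h := by ring
          rw [e3]
          exact (hQ g hg).2)
      have h1 : ((1 : (E → ZMod q) → K) -
          (∏ j ∈ P, toK K (f j)) * (∏ g ∈ Q, (1 - toK K g))) * h ∈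
          NF hd tl ψ b ((n + 1) * w + (P.card * w + Q.card * w)) := by
        have h4 : ((1 : (E → ZMod q) → K) -
            (∏ j ∈ P, toK K (f j)) * (∏ g ∈ Q, (1 - toK K g))) * h =
            ((1 - ∏ j ∈ P, toK K (f j)) * h) * (∏ g ∈ Q, (1 - toK K g)) +
              (1 - ∏ g ∈ Q, (1 - toK K g)) * h := by
          ring
        rw [h4]
        refine Submodule.add_mem _ (NF_mono hd tl ψ (by omega) (NF_mul hd tl ψ a2 b1))
          (NF_mono hd tl ψ (by omega) b2)
      have h2 := NF_mul hd tl ψ h1 (hone i)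
      have h3 : ((1 : (E → ZMod q) → K) -
          (∏ j ∈ P, toK K (f j)) * (∏ g ∈ Q, (1 - toK K g))) * h * (1 - toK K (f i)) =
          (1 - toK K (f i)) * h := by
        funext z
        by_cases hz : f i z = true
        · simp [toK, hz]
        · have h5 : ((∏ j ∈ P, toK K (f j)) * (∏ g ∈ Q, (1 - toK K g))) z = 0 := by
            rw [Pi.mul_apply, Finset.prod_apply, Finset.prod_apply]
            by_cases hP : ∀ j ∈ P, f j z = true
            · have : ∃ g ∈ Q, g z = true := by
                by_contra hcon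
                push Not at hcon
                exact hz (hstep z hP (fun g hg => by simpa using hcon g hg))
              obtain ⟨g, hg, hgz⟩ := this
              rw [Finset.prod_eq_zero (s := Q) hg (by simp [toK, hgz]), mul_zero]
            · push Not at hP
              obtain ⟨j, hj, hjz⟩ := hP
              rw [Finset.prod_eq_zero (s := P) hj (by simp [toK, hjz]), zero_mul]
          simp only [Pi.mul_apply, Pi.sub_apply, Pi.one_apply] at h5 ⊢
          rw [h5]
          ring
      rw [h3] at h2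
      refine NF_mono hd tl ψ ?_ h2
      have h6 : (P.card + Q.card) * w ≤ k * w := Nat.mul_le_mul_right w hPQ
      have e4 : (P.card + Q.card) * w = P.card * w + Q.card * w := by ring
      have e5 : (k + 1) * w = k * w + w := by ring
      omega
  exact main i.val i rfl

end

end Pool.Agent.V8H57.WF
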