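import Pool.Agent.V8H57.WF.Greedy
import Pool.Agent.V8H57.WF.Axioms
import Pool.Agent.V8H57.WF.Null
import Pool.Agent.V8H57.WF.Ext

/-!
No refutation with few chains of wild disjunctions, given a partial partition for which all
formulas have shallow trees.
-/

set_option autoImplicit false
set_option linter.unusedSectionVars false

namespace Pool.Agent.V8H57.WF

open Finset Pool.Agent.Helper600R2 Pool.Agent.Helper600R2.Cnt

section

variable {Vt E : Type} [Fintype Vt] [Fintype E] [DecidableEq Vt] [DecidableEq E]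
  (hd tl : E → Vt) {q : ℕ} [NeZero q] {K : Type*} [Field K] (ψ : AddChar (ZMod q) K)
  {p : ℕ} [Fact p.Prime] [CharP K p]

lemma axiom_tau {N : ℕ} {𝓑 : Finset (Fm p (Var q N))} {β : Fm p (Var q N) → Bool}
    {φ : Fm p (Var q N)} (h : IsAxiom φ) (hφ : φ ∉ 𝓑) : IsAxiom (tau 𝓑 β φ) := by
  obtain ⟨t, φs, rfl, h⟩ := h
  refine ⟨t, fun j => tau 𝓑 β (φs j), tau_notMem hφ, ?_⟩
  rcases h with ⟨v, hv⟩ | ⟨e, f, hef, hdis, ⟨j, hj⟩, ⟨j', hj'⟩⟩
  · left
    refine ⟨v, fun e he => ?_⟩
    obtain ⟨j, hj⟩ := hv e he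
    exact ⟨j, by simp only [hj]; rfl⟩
  · right
    exact ⟨e, f, hef, hdis, ⟨j, by simp only [hj]; rfl⟩, ⟨j', by simp only [hj']; rfl⟩⟩

theorem no_refutationW (hψ : ψ.IsPrimitive) (hqK : (q : K) ≠ 0) (hVt : 3 < Fintype.card Vt)
    (hinc : ∀ v : Vt, (inc hd tl v).card ≤ 4) (c d k G F s : ℕ) (hk : 1 ≤ k) (hqk : q ≤ k)
    (hconn : ∀ u : Vt → ZMod q, dd hd tl u = 0 → (nsupp u).card < Fintype.card Vt → u = 0)
    (hexp : ∀ u : Vt → ZMod q,
      (nsupp (dd hd tl u)).card ≤ 2 * ((F + (s + 1) * (3 * c + 2) + 2) * ww k p G d) →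
      3 * (nsupp u).card < 2 * Fintype.card Vt → 3 * (nsupp u).card < Fintype.card Vt)
    {N : ℕ} (ρ : PS N) (hρ : IsPP q ρ)
    (hN : Fintype.card E * (2 * (q - 1)) + q * ρ.card ≤ N)
    {T : ℕ} (L : Fin T → Fm p (Var q N)) (S : Finset (Fin T)) (hS : S.card ≤ s)
    (𝓑 : Finset (Fm p (Var q N))) (hB : 𝓑 ⊆ subOff L S)
    (hch : Chains F 𝓑) (href : IsRefutationW c S 𝓑 L)
    (hdepth : ∀ φ ∈ subOff L S, φ.depth ≤ d) (hG : ∀ φ ∈ subOff L S, (topsB 𝓑 φ).card ≤ G)
    (hroom : q * (ρ.card + 2 * k + k * d) ≤ N)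
    (hT : ∀ χ ∈ famB (fun a : Var q N => a.1) 𝓑 (subOff L S), HasT q k χ ρ k) : False := by
  classical
  obtain ⟨b, y, hGood⟩ := exists_good hd tl ψ hψ hqK hVt hinc N ρ hρ hN
  set blk : Var q N → Finset (Fin N) := fun a => a.1 with hblk
  set 𝒰 : Finset (Fm p (Var q N)) := subOff L S with h𝒰def
  have h𝒰 : ClosedFm 𝒰 := subOff_closed L S
  have hLU : ∀ i, i ∉ S → L i ∈ 𝒰 := fun i hi => mem_subOff L hi
  set w : ℕ := ww k p G d with hw
  have hkw : 8 * k + 12 ≤ w := by rw [hw]; unfold ww; omega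
  set m : ℕ := (s + 1) * (3 * c + 2) with hm
  have hm2 : 2 ≤ m := by
    rw [hm]
    have : 1 * 2 ≤ (s + 1) * (3 * c + 2) := Nat.mul_le_mul (by omega) (by omega)
    omega
  set D : ℕ := (F + m + 2) * w with hDdef
  obtain ⟨R, hR1, hR2, hR3⟩ := exists_reduction hd tl ψ hψ b D (by omega) hconn hexp
  have hdown : ∀ w' ≤ D, ∀ g ∈ DC ψ w', g ∈ NF hd tl ψ b D → g ∈ NF hd tl ψ b w' := by
    intro w' hw' g hg hg'
    have h1 := hR2 w' hw' g hg
    rw [hR1 g hg', sub_zero] at h1
    exact h1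
  have hone : (1 : (E → ZMod q) → K) ∉ NF hd tl ψ b D := fun h1 => hR3 (hR1 1 h1)
  have hFD : (F + 1) * w ≤ D := Nat.mul_le_mul_right w (by omega)
  obtain ⟨β, h, n, hnF, hh, hnot, hval⟩ := greedy (k := k) (blk := blk) hψ hqK hGood h𝒰 G d hG
    hdepth hdown hone hFD hB hch
  rw [← hw] at hh hval
  let f : Fin T → (E → ZMod q) → Bool := fun i z => VX 𝒰 (VB q k ρ blk y 𝓑 β z) (L i)
  have hf : ∀ i, i ∉ S → f i = fun z => VB q k ρ blk y 𝓑 β z (L i) :=
    fun i hi => funext fun z => VX_mem (hLU i hi)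
  -- trees exist for all values
  have hrdT : ∀ z, ∀ φ ∈ 𝒰, HasT q k (rd blk (tv q k ρ (y z)) (tau 𝓑 β φ)) ρ k := by
    intro z φ hφ
    rw [rd_eq_subst (fun b => tv_cst (y z) b), subst_tau]
    exact hT _ (mem_famB blk hφ _)
  have hrdD : ∀ z, ∀ φ ∈ 𝒰, (rd blk (tv q k ρ (y z)) (tau 𝓑 β φ)).dep ≤ d := by
    intro z φ hφ
    rw [rd_eq_subst (fun b => tv_cst (y z) b)]
    exact (subst_dep blk _ _).trans ((tau_depth φ).trans (hdepth φ hφ))
  have hroom' : ∀ (z : E → ZMod q), ∀ φ ∈ 𝒰,
      q * (ρ.card + 2 * k + k * (rd blk (tv q k ρ (y z)) (tau 𝓑 β φ)).dep) ≤ N := by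
    intro z φ hφ
    refine (Nat.mul_le_mul_left q ?_).trans hroom
    exact Nat.add_le_add_left (Nat.mul_le_mul_left k (hrdD z φ hφ)) _
  -- degrees
  have hDC : ∀ φ ∈ 𝒰, toK K (fun z => VB q k ρ blk y 𝓑 β z φ) ∈ DC ψ w :=
    fun φ hφ => VB_DC hψ hqK hGood h𝒰 G d hG hdepth φ hφ
  have hnw : (n + 1) * w = w + n * w := by ring
  -- negligible functions are negligible below `h`
  have hnullh : ∀ g : (E → ZMod q) → K, g ∈ NF hd tl ψ b w →
      g * h ∈ NF hd tl ψ b ((n + 1) * w) := by
    intro g hg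
    rw [hnw]
    exact NF_mul hd tl ψ hg hh
  -- failure functions
  have hfail1 := fun (φ : Fm p (Var q N)) (hφ : φ ∈ 𝒰) =>
    failB_null (p := p) (blk := blk) (k := k) (𝓑 := 𝓑) (β := β) hψ hqK hGood h𝒰 G d hG hdepth φ hφ
      (k + k) (ck q k ρ) (fun χ => ck_ht χ)
  have hfail2 := fun (φ : Fm p (Var q N)) (hφ : φ ∈ 𝒰) (u : Fin N) =>
    failB_null (p := p) (blk := blk) (k := k) (𝓑 := 𝓑) (β := β) hψ hqK hGood h𝒰 G d hG hdepth φ hφ
      (k + 1) (ckA q k ρ u) (fun χ => ckA_ht u χ)
  have hsound : ∀ i, ∃ (P : Finset (Fin T)) (Q : Finset ((E → ZMod q) → Bool)),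
      P.card + Q.card ≤ 3 * c + 2 ∧ (∀ j ∈ P, j < i) ∧
      (∀ g ∈ Q, toK K g ∈ DC ψ w ∧ toK K g * h ∈ NF hd tl ψ b ((n + 1) * w)) ∧
      ∀ z, (∀ j ∈ P, f j z = true) → (∀ g ∈ Q, g z = false) → f i z = true := by
    intro i
    rcases href.2 i with ⟨hiS, hax⟩ | ⟨Q, hQ, hQU, hcase⟩
    · -- axioms
      by_cases hwild : L i ∈ 𝓑
      · have hax' := hax
        obtain ⟨t, φs, hLi, _⟩ := hax'
        rw [hLi] at hwild hax
        have hmem := hB hwild
        refine ⟨∅, ∅, by simp, by simp, by simp, ?_⟩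
        intro z _ _
        rw [hf i hiS]
        show VB q k ρ blk y 𝓑 β z (L i) = true
        rw [hLi, VB_mem z hwild]
        rcases hval t φs hwild with ⟨_, g2⟩ | ⟨g1, _⟩
        · exfalso
          refine wild_clause (𝓑 := 𝓑) (β := β) hψ hqK hGood hqk (w := w) (n := n) (D := D)
            (by omega) ?_ hh hnot hax
            (fun j => hDC _ (h𝒰.or t φs hmem j)) g2
          exact Nat.mul_le_mul_right w (by omega)
        · exact g1
      · have hax' := axiom_tau (β := β) hax hwild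
        obtain ⟨t, φs, u, hLi, hforced⟩ := axiom_forced hax'
        refine ⟨∅, {fun z => ((ckA q k ρ u (rd blk (tv q k ρ (y z)) (tau 𝓑 β (L i)))).eval
          (y z)).isNone}, by simp, by simp, ?_, ?_⟩
        · intro g hg
          rw [mem_singleton] at hg
          subst hg
          obtain ⟨g1, g2⟩ := hfail2 (L i) (hLU i hiS) u
          refine ⟨DC_mono ψ ?_ g2, hnullh _ (NF_mono hd tl ψ ?_ g1)⟩ <;>
          · rw [hw]
            unfold ww
            omega
        · intro z _ hQz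
          have h1 := hQz _ (mem_singleton_self _)
          rw [hf i hiS]
          show tv q k ρ (y z) (rd blk (tv q k ρ (y z)) (tau 𝓑 β (L i))) = true
          have h2 := hroom' z _ (hLU i hiS)
          have h3 := hrdT z _ (hLU i hiS)
          rw [hLi] at h1 h2 h3 ⊢
          exact check_ax hk (hGood.pp z) (hGood.ext z) h2 h3 u
            (hforced (tv q k ρ (y z)) k) h1
    · -- inferences
      let J : Fm p (Var q N) → ℕ := fun χ =>
        match χ with
        | .or t φs =>
          if hex : ∃ j : Fin t, (1 - toK K (fun z => VB q k ρ blk y 𝓑 β z (φs j))) * h = 0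
          then (hex.choose).val else t
        | _ => 0
      obtain ⟨P, E', hP, hE', hlt, hE'B, hinf⟩ := hcase J
      have hgQ : ∀ χ ∈ Q, ∃ g : (E → ZMod q) → Bool,
          (toK K g ∈ DC ψ w ∧ toK K g * h ∈ NF hd tl ψ b ((n + 1) * w)) ∧
          ∀ z, g z = false → (χ ∉ 𝓑 → RespAt (VB q k ρ blk y 𝓑 β z) χ) ∧
            (χ ∈ 𝓑 → InCase (VB q k ρ blk y 𝓑 β z) J χ) := by
        intro χ hχ
        have hχU := hQU hχ
        by_cases hχB : χ ∈ 𝓑
        · obtain ⟨t, φs, rfl⟩ := hch.1 χ hχB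
          rcases hval t φs hχB with ⟨g1, _⟩ | ⟨g1, g2⟩
          · refine ⟨fun _ => false, ?_, fun z _ => ⟨fun h' => absurd hχB h', fun _ h' => ?_⟩⟩
            · have h0 : toK K (fun _ : E → ZMod q => false) = 0 := by
                funext z; simp [toK]
              rw [h0, zero_mul]
              exact ⟨Submodule.zero_mem _, Submodule.zero_mem _⟩
            · rw [VB_mem z hχB, g1] at h'
              exact absurd h' (by simp)
          · have hj := g2.choose_spec
            set j := g2.choose with hjdef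
            have hJ : J (.or t φs) = j.val := by
              simp only [J, dif_pos g2]
              rfl
            refine ⟨fun z => !(VB q k ρ blk y 𝓑 β z (φs j)), ?_, fun z hz =>
              ⟨fun h' => absurd hχB h', fun _ _ => ?_⟩⟩
            · rw [toK_not, hj]
              exact ⟨Submodule.sub_mem _ (one_mem_DC ψ w) (hDC _ (h𝒰.or t φs hχU j)),
                Submodule.zero_mem _⟩
            · refine ⟨by rw [hJ]; exact j.isLt, ?_⟩
              have h5 : (⟨J (.or t φs), by rw [hJ]; exact j.isLt⟩ : Fin t) = j :=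
                Fin.ext hJ
              rw [h5]
              simpa using hz
        · refine ⟨fun z => ((ck q k ρ (rd blk (tv q k ρ (y z)) (tau 𝓑 β χ))).eval
            (y z)).isNone, ?_, fun z h1 => ⟨fun _ => ?_, fun h' => absurd h' hχB⟩⟩
          · obtain ⟨g1, g2⟩ := hfail1 χ hχU
            refine ⟨DC_mono ψ ?_ g2, hnullh _ (NF_mono hd tl ψ ?_ g1)⟩ <;>
            · rw [hw]
              unfold ww
              omega
          · cases χ with
            | var a => trivial
            | md i t φs => trivial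
            | neg φ =>
              have hφ := h𝒰.neg φ hχU
              exact check_neg (hGood.pp z) (hGood.ext z) (hroom' z φ hφ) (hrdT z φ hφ) h1
            | or t φs =>
              have hr := hroom' z _ hχU
              have ht := hrdT z _ hχU
              have hgoal : VB q k ρ blk y 𝓑 β z (.or t φs) =
                  tv q k ρ (y z) (rd blk (tv q k ρ (y z)) (tau 𝓑 β (.or t φs))) := rfl
              show VB q k ρ blk y 𝓑 β z (.or t φs) = true ↔
                ∃ j, VB q k ρ blk y 𝓑 β z (φs j) = true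
              rw [hgoal]
              rw [tau_notMem hχB] at h1 hr ht ⊢
              exact check_or (hGood.pp z) (hGood.ext z) hr ht
                (fun j => hrdT z _ (h𝒰.or t φs hχU j)) h1
      have hgE : ∀ e ∈ E', ∃ g : (E → ZMod q) → Bool,
          (toK K g ∈ DC ψ w ∧ toK K g * h ∈ NF hd tl ψ b ((n + 1) * w)) ∧
          ∀ z, g z = false → IntroAt (VB q k ρ blk y 𝓑 β z) e.2 e.1 := by
        rintro ⟨χ, m⟩ he
        have hχB : χ ∈ 𝓑 := hE'B _ he
        have hχU := hB hχB
        have h0 : toK K (fun _ : E → ZMod q => false) = 0 := by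
          funext z; simp [toK]
        obtain ⟨t, φs, rfl⟩ := hch.1 χ hχB
        by_cases hm : m < t
        · rcases hval t φs hχB with ⟨_, g2⟩ | ⟨g1, _⟩
          · refine ⟨fun z => VB q k ρ blk y 𝓑 β z (φs ⟨m, hm⟩),
              ⟨hDC _ (h𝒰.or t φs hχU _), g2 ⟨m, hm⟩⟩, fun z hz => ?_⟩
            intro hm' hz'
            have hz2 : VB q k ρ blk y 𝓑 β z (φs ⟨m, hm⟩) = false := hz
            have hz3 : VB q k ρ blk y 𝓑 β z (φs ⟨m, hm⟩) = true := hz'
            rw [hz2] at hz3
            exact absurd hz3 (by simp)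
          · refine ⟨fun _ => false, ?_, fun z _ => ?_⟩
            · rw [h0, zero_mul]
              exact ⟨Submodule.zero_mem _, Submodule.zero_mem _⟩
            · intro _ _
              rw [VB_mem z hχB, g1]
        · refine ⟨fun _ => false, ?_, fun z _ => ?_⟩
          · rw [h0, zero_mul]
            exact ⟨Submodule.zero_mem _, Submodule.zero_mem _⟩
          · intro hm' _
            exact absurd hm' hm
      choose! gQ hgQ1 hgQ2 using hgQ
      choose! gE hgE1 hgE2 using hgE
      refine ⟨P, Q.image gQ ∪ E'.image gE, ?_, hlt, ?_, ?_⟩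
      · have h1 := card_union_le (Q.image gQ) (E'.image gE)
        have h2 := card_image_le (s := Q) (f := gQ)
        have h3 := card_image_le (s := E') (f := gE)
        omega
      · intro g hg
        rcases mem_union.1 hg with hg | hg
        · obtain ⟨χ, hχ, rfl⟩ := mem_image.1 hg
          exact hgQ1 χ hχ
        · obtain ⟨e, he, rfl⟩ := mem_image.1 hg
          exact hgE1 e he
      · intro z hPz hQz
        refine hinf (VX 𝒰 (VB q k ρ blk y 𝓑 β z)) (VX_respMod h𝒰 (VB_respMod z))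
          (fun χ hχ => VX_respAt_notMem hχ) ?_ ?_ ?_ hPz
        · intro χ hχ hχB
          exact VX_respAt_mem h𝒰 (hQU hχ)
            ((hgQ2 χ hχ z (hQz _ (mem_union_left _ (mem_image_of_mem _ hχ)))).1 hχB)
        · intro χ hχ hχB
          exact VX_inCase h𝒰 (hQU hχ)
            ((hgQ2 χ hχ z (hQz _ (mem_union_left _ (mem_image_of_mem _ hχ)))).2 hχB)
        · intro e he
          exact VX_introAt h𝒰 (hB (hE'B e he))
            (hgE2 e he z (hQz _ (mem_union_right _ (mem_image_of_mem _ he))))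
  -- merging the premises of the free lines
  choose P Q hcard hlt hnull hs using hsound
  have hmerge := merge S f P Q (3 * c + 2) hcard hlt hs
  let f' : Fin T → (E → ZMod q) → Bool := fun i => if i ∈ S then fun _ => true else f i
  have hf' : ∀ i, i ∉ S → f' i = f i := fun i hi => if_neg hi
  have hsound' : ∀ i, ∃ (P : Finset (Fin T)) (Q : Finset ((E → ZMod q) → Bool)),
      P.card + Q.card ≤ m ∧ (∀ j ∈ P, j < i) ∧
      (∀ g ∈ Q, toK K g ∈ DC ψ w ∧ toK K g * h ∈ NF hd tl ψ b ((n + 1) * w)) ∧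
      ∀ z, (∀ j ∈ P, f' j z = true) → (∀ g ∈ Q, g z = false) → f' i z = true := by
    intro i
    by_cases hi : i ∈ S
    · refine ⟨∅, ∅, by simp, by simp, by simp, fun z _ _ => ?_⟩
      simp only [f', if_pos hi]
    · obtain ⟨P', Q', g1, g2, g3, g4⟩ := hmerge i
      refine ⟨P', Q', ?_, fun j hj => (g2 j hj).1, ?_, ?_⟩
      · refine g1.trans ?_
        rw [hm]
        exact Nat.mul_le_mul_right _ (by omega)
      · intro g hg
        obtain ⟨i', hi'⟩ := g3 g hg
        exact hnull i' g hi'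
      · intro z hPz hQz
        rw [hf' i hi]
        refine g4 z (fun j hj => ?_) hQz
        have h1 := hPz j hj
        rw [hf' j (g2 j hj).2] at h1
        exact h1
  have hdeg' : ∀ i, toK K (f' i) ∈ DC ψ w := by
    intro i
    by_cases hi : i ∈ S
    · have h1 : toK K (f' i) = 1 := by
        funext z
        simp [f', hi, toK]
      rw [h1]
      exact one_mem_DC ψ w
    · rw [hf' i hi, hf i hi]
      exact hDC _ (hLU i hi)
  obtain ⟨⟨i₀, f₀, hi₀S, hi₀⟩, _⟩ := href
  have hD2 : (n + m + 2) * w ≤ D := Nat.mul_le_mul_right w (by omega)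
  have hfin := sound_null (k := m) hD2 hdown hh f' hsound' hdeg' i₀
  have hf0 : toK K (f' i₀) = 0 := by
    rw [hf' i₀ hi₀S, hf i₀ hi₀S]
    funext z
    have hz : VB q k ρ blk y 𝓑 β z (L i₀) = false := by
      rw [hi₀]
      by_cases hwild : Fm.or 0 f₀ ∈ 𝓑
      · rw [VB_mem z hwild]
        rcases hval 0 f₀ hwild with ⟨g1, _⟩ | ⟨_, j, _⟩
        · exact g1
        · exact j.elim0
      · by_contra hne
        have h1 : tv q k ρ (y z) (rd blk (tv q k ρ (y z)) (tau 𝓑 β (.or 0 f₀))) = true := by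
          have h2 : VB q k ρ blk y 𝓑 β z (.or 0 f₀) = true := by
            cases h3 : VB q k ρ blk y 𝓑 β z (.or 0 f₀)
            · exact absurd h3 hne
            · rfl
          exact h2
        rw [tau_notMem hwild, tv_iff] at h1
        obtain ⟨σ, _, hσ⟩ := h1
        obtain ⟨j, _⟩ := W_or_true.mp hσ
        exact j.elim0
    exact toK_false hz
  rw [hf0, sub_zero, one_mul] at hfin
  apply hnot
  refine NF_mono hd tl ψ ?_ hfin
  exact Nat.mul_le_mul_right w (by omega)

end

end Pool.Agent.V8H57.WF
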