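import Pool.Agent.V8H57.WF.Defs
import Pool.Agent.Helper600R2.Cnt.Sub

/-! Replacing the wild disjunctions by constants. -/

set_option autoImplicit false
set_option linter.unusedSectionVars false

namespace Pool.Agent.V8H57.WF

open Finset Pool.Agent.Helper600R2.Cnt

variable {p : ℕ} {α : Type}

/-- a formula with the constant value `b` -/
def cstF (p : ℕ) (α : Type) (b : Bool) : Fm p α := .md (if b then 0 else 1) 0 Fin.elim0

open Classical in
/-- replace the wild disjunctions `φ` by the constants `β φ` -/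
noncomputable def tau (𝓑 : Finset (Fm p α)) (β : Fm p α → Bool) : Fm p α → Fm p α
  | .var a => .var a
  | .neg φ => .neg (tau 𝓑 β φ)
  | .or t φs => if .or t φs ∈ 𝓑 then cstF p α (β (.or t φs)) else
      .or t (fun j => tau 𝓑 β (φs j))
  | .md i t φs => .md i t (fun j => tau 𝓑 β (φs j))

variable {𝓑 : Finset (Fm p α)} {β : Fm p α → Bool}

lemma tau_mem {t : ℕ} {φs : Fin t → Fm p α} (h : Fm.or t φs ∈ 𝓑) :
    tau 𝓑 β (.or t φs) = cstF p α (β (.or t φs)) := by
  simp only [tau, if_pos h]

lemma tau_notMem {t : ℕ} {φs : Fin t → Fm p α} (h : Fm.or t φs ∉ 𝓑) :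
    tau 𝓑 β (.or t φs) = .or t (fun j => tau 𝓑 β (φs j)) := by
  simp only [tau, if_neg h]

lemma depth_le_or {t : ℕ} (φs : Fin t → Fm p α) (j : Fin t) :
    (φs j).depth + 1 ≤ (Fm.or t φs).depth := by
  simp only [Fm.depth]
  have := Finset.le_sup (f := fun j => (φs j).depth) (mem_univ j)
  omega

lemma depth_le_md {t : ℕ} (i : ZMod p) (φs : Fin t → Fm p α) (j : Fin t) :
    (φs j).depth + 1 ≤ (Fm.md i t φs).depth := by
  simp only [Fm.depth]
  have := Finset.le_sup (f := fun j => (φs j).depth) (mem_univ j)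
  omega

lemma tau_depth (φ : Fm p α) : (tau 𝓑 β φ).depth ≤ φ.depth := by
  classical
  induction φ with
  | var a => exact le_rfl
  | neg φ ih => simp only [tau, Fm.depth]; omega
  | or t φs ih =>
    by_cases h : Fm.or t φs ∈ 𝓑
    · rw [tau_mem h]
      simp only [cstF, Fm.depth, univ_eq_empty, sup_empty, Nat.bot_eq_zero]
      omega
    · rw [tau_notMem h]
      simp only [Fm.depth]
      have : univ.sup (fun j => (tau 𝓑 β (φs j)).depth) ≤ univ.sup (fun j => (φs j).depth) :=
        Finset.sup_mono_fun (fun j _ => ih j)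
      omega
  | md i t φs ih =>
    simp only [tau, Fm.depth]
    have : univ.sup (fun j => (tau 𝓑 β (φs j)).depth) ≤ univ.sup (fun j => (φs j).depth) :=
      Finset.sup_mono_fun (fun j _ => ih j)
    omega

open Classical in
lemma tau_tops (φ : Fm p α) : (tau 𝓑 β φ).tops = (topsB 𝓑 φ).image (tau 𝓑 β) := by
  induction φ with
  | var a => rfl
  | neg φ ih => exact ih
  | or t φs ih =>
    by_cases h : Fm.or t φs ∈ 𝓑
    · rw [tau_mem h]
      simp only [topsB, if_pos h, image_singleton, tau_mem h]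
      rfl
    · rw [tau_notMem h]
      simp only [topsB, if_neg h, Fm.tops]
      ext χ
      simp only [mem_biUnion, mem_univ, true_and, mem_image, ih]
      constructor
      · rintro ⟨j, ψ, h1, h2⟩
        exact ⟨ψ, ⟨j, h1⟩, h2⟩
      · rintro ⟨ψ, ⟨j, h1⟩, h2⟩
        exact ⟨j, ψ, h1, h2⟩
  | md i t φs _ =>
    simp only [topsB, image_singleton]
    rfl

lemma tau_tops_card (φ : Fm p α) : (tau 𝓑 β φ).tops.card ≤ (topsB 𝓑 φ).card := by
  classical
  rw [tau_tops]
  exact card_image_le

open Classical in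
lemma tau_closed {𝒰 : Finset (Fm p α)} (h𝒰 : ClosedFm 𝒰) :
    ClosedFm (𝒰.image (tau 𝓑 β)) := by
  refine ⟨?_, ?_, ?_⟩
  · intro φ hφ
    obtain ⟨ψ, h1, h2⟩ := mem_image.1 hφ
    cases ψ with
    | var a => simp only [tau] at h2; cases h2
    | neg ψ =>
      simp only [tau, Fm.neg.injEq] at h2
      rw [← h2]
      exact mem_image_of_mem _ (h𝒰.neg ψ h1)
    | or t φs =>
      by_cases h : Fm.or t φs ∈ 𝓑
      · rw [tau_mem h] at h2; simp only [cstF] at h2; cases h2
      · rw [tau_notMem h] at h2; cases h2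
    | md i t φs => simp only [tau] at h2; cases h2
  · intro t φs hφ j
    obtain ⟨ψ, h1, h2⟩ := mem_image.1 hφ
    cases ψ with
    | var a => simp only [tau] at h2; cases h2
    | neg ψ => simp only [tau] at h2; cases h2
    | or t' φs' =>
      by_cases h : Fm.or t' φs' ∈ 𝓑
      · rw [tau_mem h] at h2; simp only [cstF] at h2; cases h2
      · rw [tau_notMem h] at h2
        cases h2
        exact mem_image_of_mem _ (h𝒰.or t φs' h1 j)
    | md i t φs => simp only [tau] at h2; cases h2
  · intro i t φs hφ j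
    obtain ⟨ψ, h1, h2⟩ := mem_image.1 hφ
    cases ψ with
    | var a => simp only [tau] at h2; cases h2
    | neg ψ => simp only [tau] at h2; cases h2
    | or t' φs' =>
      by_cases h : Fm.or t' φs' ∈ 𝓑
      · rw [tau_mem h] at h2
        simp only [cstF] at h2
        cases h2
        exact j.elim0
      · rw [tau_notMem h] at h2; cases h2
    | md i' t' φs' =>
      simp only [tau] at h2
      cases h2
      exact mem_image_of_mem _ (h𝒰.md i t φs' h1 j)

lemma tau_congr {β' : Fm p α → Bool} (φ : Fm p α)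
    (h : ∀ χ : Fm p α, χ.depth ≤ φ.depth → β χ = β' χ) : tau 𝓑 β φ = tau 𝓑 β' φ := by
  induction φ with
  | var a => rfl
  | neg φ ih =>
    simp only [tau]
    rw [ih (fun χ hχ => h χ (by simp only [Fm.depth]; omega))]
  | or t φs ih =>
    by_cases hB : Fm.or t φs ∈ 𝓑
    · rw [tau_mem hB, tau_mem hB, h _ le_rfl]
    · rw [tau_notMem hB, tau_notMem hB]
      congr 1
      funext j
      refine ih j (fun χ hχ => h χ ?_)
      have := depth_le_or φs j
      omega
  | md i t φs ih =>
    simp only [tau]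
    congr 1
    funext j
    refine ih j (fun χ hχ => h χ ?_)
    have := depth_le_md i φs j
    omega

section subst

variable {N : ℕ} (blk : α → Finset (Fin N)) (𝓑)

open Classical in
/-- replacing the maximal `md` and wild subformulas by constants -/
noncomputable def substB (μ : Fm p α → Bool) : Fm p α → MF N
  | .var a => .var (blk a)
  | .neg φ => .neg (substB μ φ)
  | .or t φs => if .or t φs ∈ 𝓑 then .cst (μ (.or t φs)) else .or t (fun j => substB μ (φs j))
  | .md i t φs => .cst (μ (.md i t φs))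

variable {𝓑}

lemma substB_congr {μ μ' : Fm p α → Bool} (φ : Fm p α) (h : ∀ χ ∈ topsB 𝓑 φ, μ χ = μ' χ) :
    substB 𝓑 blk μ φ = substB 𝓑 blk μ' φ := by
  classical
  induction φ with
  | var a => rfl
  | neg φ ih => simp only [substB]; rw [ih h]
  | or t φs ih =>
    by_cases hB : Fm.or t φs ∈ 𝓑
    · simp only [substB, if_pos hB]
      rw [h _ (by simp only [topsB, if_pos hB, mem_singleton])]
    · simp only [substB, if_neg hB]
      congr 1
      funext j
      apply ih j
      intro χ hχ
      apply h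
      simp only [topsB, if_neg hB, mem_biUnion, mem_univ, true_and]
      exact ⟨j, hχ⟩
  | md i t φs _ =>
    simp only [substB]
    rw [h _ (by simp [topsB])]

lemma substB_dep (μ : Fm p α → Bool) (φ : Fm p α) : (substB 𝓑 blk μ φ).dep ≤ φ.depth := by
  classical
  induction φ with
  | var a => simp [substB, MF.dep]
  | neg φ ih => simp only [substB, MF.dep, Fm.depth]; omega
  | or t φs ih =>
    by_cases hB : Fm.or t φs ∈ 𝓑
    · simp only [substB, if_pos hB, MF.dep]; omega
    · simp only [substB, if_neg hB, MF.dep, Fm.depth]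
      have : univ.sup (fun j => (substB 𝓑 blk μ (φs j)).dep) ≤
          univ.sup (fun j => (φs j).depth) := Finset.sup_mono_fun (fun j _ => ih j)
      omega
  | md i t φs _ => simp [substB, MF.dep]

lemma subst_tau (μ : Fm p α → Bool) (φ : Fm p α) :
    subst blk μ (tau 𝓑 β φ) = substB 𝓑 blk (fun χ => μ (tau 𝓑 β χ)) φ := by
  induction φ with
  | var a => rfl
  | neg φ ih => simp only [tau, subst, substB, ih]
  | or t φs ih =>
    by_cases hB : Fm.or t φs ∈ 𝓑
    · simp only [substB, if_pos hB, tau_mem hB]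
      rfl
    · rw [tau_notMem hB]
      simp only [substB, if_neg hB, subst]
      congr 1
      funext j
      exact ih j
  | md i t φs _ => rfl

open Classical in
/-- the family of all formulas obtained from `𝒰` by replacing the maximal `md` and wild
subformulas by constants -/
noncomputable def famB (𝓑 𝒰 : Finset (Fm p α)) : Finset (MF N) :=
  𝒰.biUnion (fun φ =>
    (topsB 𝓑 φ).powerset.image (fun A => substB 𝓑 blk (fun χ => decide (χ ∈ A)) φ))

lemma mem_famB {𝒰 : Finset (Fm p α)} {φ : Fm p α} (hφ : φ ∈ 𝒰) (μ : Fm p α → Bool) :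
    substB 𝓑 blk μ φ ∈ famB blk 𝓑 𝒰 := by
  classical
  simp only [famB, mem_biUnion, mem_image, mem_powerset]
  refine ⟨φ, hφ, (topsB 𝓑 φ).filter (fun χ => μ χ = true), filter_subset _ _, ?_⟩
  apply substB_congr
  intro χ hχ
  cases hμ : μ χ <;> simp [hμ, hχ]

lemma exists_of_mem_famB {𝒰 : Finset (Fm p α)} {ψ : MF N} (h : ψ ∈ famB blk 𝓑 𝒰) :
    ∃ φ ∈ 𝒰, ∃ μ, ψ = substB 𝓑 blk μ φ := by
  classical
  simp only [famB, mem_biUnion, mem_image, mem_powerset] at h
  obtain ⟨φ, hφ, A, _, rfl⟩ := h
  exact ⟨φ, hφ, _, rfl⟩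

lemma famB_card (𝒰 : Finset (Fm p α)) (G : ℕ) (hG : ∀ φ ∈ 𝒰, (topsB 𝓑 φ).card ≤ G) :
    (famB blk 𝓑 𝒰).card ≤ 𝒰.card * 2 ^ G := by
  classical
  refine card_biUnion_le.trans ?_
  calc ∑ φ ∈ 𝒰, ((topsB 𝓑 φ).powerset.image
        (fun A => substB 𝓑 blk (fun χ => decide (χ ∈ A)) φ)).card
      ≤ ∑ _φ ∈ 𝒰, 2 ^ G := by
        refine Finset.sum_le_sum (fun φ hφ => card_image_le.trans ?_)
        rw [card_powerset]
        exact Nat.pow_le_pow_right (by norm_num) (hG φ hφ)
    _ = _ := by rw [Finset.sum_const, smul_eq_mul]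

lemma famB_closed {𝒰 : Finset (Fm p α)} (h𝒰 : ClosedFm 𝒰) : Closed (famB blk 𝓑 𝒰) := by
  classical
  constructor
  · intro ψ hψ
    obtain ⟨φ, hφ, μ, h⟩ := exists_of_mem_famB blk hψ
    cases φ with
    | var a => simp [substB] at h
    | neg φ' =>
      simp only [substB, MF.neg.injEq] at h
      rw [h]
      exact mem_famB blk (h𝒰.neg φ' hφ) μ
    | or t φs =>
      by_cases hB : Fm.or t φs ∈ 𝓑
      · simp [substB, if_pos hB] at h
      · simp [substB, if_neg hB] at h
    | md i t φs => simp [substB] at h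
  · intro t ψs hψ j
    obtain ⟨φ, hφ, μ, h⟩ := exists_of_mem_famB blk hψ
    cases φ with
    | var a => simp [substB] at h
    | neg φ' => simp [substB] at h
    | or t' φs =>
      by_cases hB : Fm.or t' φs ∈ 𝓑
      · simp [substB, if_pos hB] at h
      · simp only [substB, if_neg hB] at h
        cases h
        exact mem_famB blk (h𝒰.or t φs hφ j) μ
    | md i t φs => simp [substB] at h

open Classical in
lemma fam_tau {𝒰 : Finset (Fm p α)} {χ : MF N} (h : χ ∈ fam blk (𝒰.image (tau 𝓑 β))) :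
    χ ∈ famB blk 𝓑 𝒰 := by
  obtain ⟨φ, hφ, μ, rfl⟩ := exists_of_mem_fam blk h
  obtain ⟨ψ, hψ, rfl⟩ := mem_image.1 hφ
  rw [subst_tau]
  exact mem_famB blk hψ _

end subst

end Pool.Agent.V8H57.WF
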