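import Pool.Agent.V8H57.WF.Tau
import Pool.Agent.Helper600R2.Cnt.Main

/-! The truth values of formulas, with constants for the wild disjunctions. -/

set_option autoImplicit false
set_option linter.unusedSectionVars false

namespace Pool.Agent.V8H57.WF

open Finset Pool.Agent.Helper600R2 Pool.Agent.Helper600R2.Cnt

section

variable {Vt E : Type} [Fintype Vt] [Fintype E] [DecidableEq Vt] [DecidableEq E]
  {hd tl : E → Vt} {q : ℕ} [NeZero q] {K : Type*} [Field K] {ψ : AddChar (ZMod q) K}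
  {b : Vt → ZMod q} {N : ℕ} {ρ : PS N} {y : (E → ZMod q) → PS N}
  {p : ℕ} [Fact p.Prime] [CharP K p] {α : Type} {blk : α → Finset (Fin N)} {k : ℕ}
  {𝓑 : Finset (Fm p α)} {β : Fm p α → Bool}

/-- the valuation at `z`, with the constants `β` for the wild disjunctions -/
noncomputable def VB (q k : ℕ) (ρ : PS N) {p : ℕ} {α : Type} (blk : α → Finset (Fin N))
    (y : (E → ZMod q) → PS N) (𝓑 : Finset (Fm p α)) (β : Fm p α → Bool) (z : E → ZMod q)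
    (φ : Fm p α) : Bool :=
  Vz q k ρ blk y z (tau 𝓑 β φ)

lemma VB_respMod (z : E → ZMod q) : RespMod (VB (p := p) q k ρ blk y 𝓑 β z) := by
  intro i t φs
  exact Vz_respMod (p := p) z i t (fun j => tau 𝓑 β (φs j))

lemma VB_mem (z : E → ZMod q) {t : ℕ} {φs : Fin t → Fm p α} (h : Fm.or t φs ∈ 𝓑) :
    VB (p := p) q k ρ blk y 𝓑 β z (.or t φs) = β (.or t φs) := by
  have hp : p.Prime := Fact.out
  have : Fact (1 < p) := ⟨hp.one_lt⟩
  unfold VB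
  rw [tau_mem h]
  have h1 := Vz_respMod (p := p) (q := q) (k := k) (ρ := ρ) (blk := blk) (y := y) z
    (if β (.or t φs) then 0 else 1) 0 Fin.elim0
  unfold cstF
  rw [h1]
  cases β (.or t φs) <;> simp

lemma VB_congr (z : E → ZMod q) {β' : Fm p α → Bool} (φ : Fm p α)
    (h : ∀ χ : Fm p α, χ.depth ≤ φ.depth → β χ = β' χ) :
    VB (p := p) q k ρ blk y 𝓑 β z φ = VB (p := p) q k ρ blk y 𝓑 β' z φ := by
  unfold VB
  rw [tau_congr φ h]

lemma VB_DC (hψ : ψ.IsPrimitive) (hqK : (q : K) ≠ 0) (hG : Good hd tl ψ b N ρ y)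
    {𝒰 : Finset (Fm p α)} (h𝒰 : ClosedFm 𝒰) (G d : ℕ)
    (hw : ∀ φ ∈ 𝒰, (topsB 𝓑 φ).card ≤ G) (hd' : ∀ φ ∈ 𝒰, φ.depth ≤ d) (φ : Fm p α)
    (hφ : φ ∈ 𝒰) : toK K (fun z => VB q k ρ blk y 𝓑 β z φ) ∈ DC ψ (ww k p G d) := by
  classical
  have h1 := (Vz_deg (p := p) (blk := blk) (k := k) hG (tau_closed (𝓑 := 𝓑) (β := β) h𝒰) G (by
    intro χ hχ
    obtain ⟨χ', h2, rfl⟩ := mem_image.1 hχ
    exact (tau_tops_card χ').trans (hw χ' h2)) d).1 (tau 𝓑 β φ) (mem_image_of_mem _ hφ)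
      ((tau_depth φ).trans (hd' φ hφ))
  refine J_le_DC ψ hψ hqK _ (J_mono ?_ h1)
  unfold ww
  omega

/-- negligibility of the failure of a family of trees -/
lemma failB_null (hψ : ψ.IsPrimitive) (hqK : (q : K) ≠ 0) (hG : Good hd tl ψ b N ρ y)
    {𝒰 : Finset (Fm p α)} (h𝒰 : ClosedFm 𝒰) (G d : ℕ)
    (hw : ∀ φ ∈ 𝒰, (topsB 𝓑 φ).card ≤ G) (hd' : ∀ φ ∈ 𝒰, φ.depth ≤ d) (φ : Fm p α)
    (hφ : φ ∈ 𝒰) (l : ℕ) (C : MF N → DT N (PS N)) (hC : ∀ χ, (C χ).HtLe l) :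
    toK K (fun z => ((C (rd blk (tv q k ρ (y z)) (tau 𝓑 β φ))).eval (y z)).isNone) ∈
      NF hd tl ψ b (4 * l + 8 + G * (p * AA k p G d)) ∧
    toK K (fun z => ((C (rd blk (tv q k ρ (y z)) (tau 𝓑 β φ))).eval (y z)).isNone) ∈
      DC ψ (4 * l + 8 + G * (p * AA k p G d)) := by
  classical
  refine fail_null (p := p) (blk := blk) (k := k) hψ hqK hG (tau_closed (𝓑 := 𝓑) (β := β) h𝒰) G
    ?_ d ?_ (tau 𝓑 β φ) (mem_image_of_mem _ hφ) l C hC
  · intro χ hχ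
    obtain ⟨χ', h2, rfl⟩ := mem_image.1 hχ
    exact (tau_tops_card χ').trans (hw χ' h2)
  · intro χ hχ
    obtain ⟨χ', h2, rfl⟩ := mem_image.1 hχ
    exact (tau_depth χ').trans (hd' χ' h2)

end

end Pool.Agent.V8H57.WF
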